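import Pool.Agent.Helper87.NSL.Costr
import Pool.Agent.Helper89.LX.Njr

/-! NSL*: the frozen statements of the common leaf argument: variables known to a window, invariants (Inv1), (Inv2), the
gap at the exact level. -/

set_option autoImplicit false

namespace Pool.Agent.Helper87.NSL

open Finset Filter Topology Matrix Pool.Agent.Helper69.RK Pool.Agent.Helper31.EC Pool.Agent.Helper40.EL
open Pool.Agent.Helper84.MT Pool.Agent.Helper3.LF Pool.Agent.Helper59.LF Pool.Agent.Helper89.LX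
open Pool.Agent.Helper48.NS

noncomputable section

/-- the variable `J` is a function of the partition `A` (and of the base) -/
def KnS {S : Sp} {β : Type} (A : ∀ k, Setoid (S.F k).Ω) (J : ∀ k, (S.F k).Ω → β) : Prop :=
  ∀ᶠ k in UF, ∀ ω ω', (S.F k).μ ω ≠ 0 → (S.F k).μ ω' ≠ 0 → (S.F k).Z ω ω' → A k ω ω' → J k ω = J k ω'

variable {S : Sp} {M : ℕ} {E : ℕ → ℕ} {ι : Type}

/-- (Inv1) at the window `c` : the window of the type `v` has no information about the point beyond the window of the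
type `i` -/
def Inv1 (s : MSys S M E ι) (R : ∀ k, Setoid (S.F k).Ω) (c : ℝ) (v i : ι) : Prop :=
  Nul S (fun k => I ((s.lf v).win c k) (fc (R k)) ((s.lf i).win c k))

/-- (Inv2) at the window `c` : the windows of the types `v`, `v'` are independent given the point -/
def Inv2 (s : MSys S M E ι) (R : ∀ k, Setoid (S.F k).Ω) (c : ℝ) (v v' : ι) : Prop :=
  Nul S (fun k => I ((s.lf v).win c k) ((s.lf v').win c k) (fc (R k)))

/-- two forms `J` (known to the window of `v`) and `J'` (known to the window of `v'`) which are close on the event `A`,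
where `J` is bounded at the point -/
structure TwoJ (s : MSys S M E ι) (D : ℕ) (c : ℝ) (v v' : ι) (e : ℝ) (A : ∀ k, (S.F k).Ω → Prop)
    (J J' : ∀ k, (S.F k).Ω → Matrix (Mon M D) (Mon M D) ℝ) : Prop where
  kn : KnS (fun k => (s.lf v).La k ⊓ Setoid.ker ((s.lf v).Y.cellv c k)) J
  kn' : KnS (fun k => (s.lf v').La k ⊓ Setoid.ker ((s.lf v').Y.cellv c k)) J'
  cp : ∀ᶠ k in UF, ∀ ω, (S.F k).μ ω ≠ 0 → Cpd ((gaq s.Q D).cp k) (J k ω) ∧ Cpd ((gaq s.Q D).cp k) (J' k ω)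
  nr : ∀ᶠ k in UF, ∀ ω, (S.F k).μ ω ≠ 0 → A k ω → Nr (e * (S.F k).n) (J k ω) (J' k ω)
  ph : ∀ᶠ k in UF, ∀ ω, (S.F k).μ ω ≠ 0 → A k ω → phi (S.dl 1 k) (J k ω) (s.Q.v k ω) ≤ 2 ^ (e * (S.F k).n)

/-- a form-valued variable of the space as a label with form -/
def onG {κ : Type} (F : FSp) (G : F.Ω → Matrix κ κ ℝ) : FD F κ where
  l := ⟨F, (FLab.triv F).p, rfl, Setoid.ker G⟩
  g := G
  g' := G
  meas := fun _ _ _ _ h _ => ⟨h, h⟩

/-- THE GAP: two such forms give an admissible form of the SAME space (no extension) which dominates `J` on the event up to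
`2 ^ (C e n)`; the constant depends on `M`, `D` only -/
def GAP (M D : ℕ) : Prop := ∃ C : ℝ, 0 ≤ C ∧ ∀ (S : Sp) (E : ℕ → ℕ) (ι : Type) (_ : Finite ι) (s : MSys S M E ι)
  (R : ∀ k, Setoid (S.F k).Ω) (c : ℝ) (v v' : ι) (e : ℝ) (A : ∀ k, (S.F k).Ω → Prop)
  (J J' : ∀ k, (S.F k).Ω → Matrix (Mon M D) (Mon M D) ℝ),
  (∀ k, R k ≤ Setoid.ker (s.Q.cellv 1 k)) → 0 ≤ c → c ≤ 1 → 0 < e → v ≠ v' →
  (∀ i, i ≠ v → i ≠ v' → Inv1 s R c v i) → Inv2 s R c v v' → TwoJ s D c v v' e A J J' →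
  ∃ G : ∀ k, (S.F k).Ω → Matrix (Mon M D) (Mon M D) ℝ, (gaq s.Q D).Adf (cndR s R c) (fun k => onG (S.F k) (G k)) ∧
    ∀ᶠ k in UF, ∀ ω, (S.F k).μ ω ≠ 0 → A k ω → ∀ z, qf (J k ω) z ≤ 2 ^ (C * e * (S.F k).n) * qf (G k ω) z

end

end Pool.Agent.Helper87.NSL
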