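import Pool.Agent.Helper89.MG.Cms

/-! THEOREM COST without maximality of the label, for systems of leaves whose point is known to a finer resolution `R`
(labels may depend on the deeper digits `R` of the point). -/

set_option autoImplicit false

namespace Pool.Agent.Helper87.NSL

open Finset Filter Topology Matrix Pool.Agent.Helper69.RK Pool.Agent.Helper31.EC Pool.Agent.Helper40.EL
open Pool.Agent.Helper84.MT Pool.Agent.Helper3.LF Pool.Agent.Helper59.LF Pool.Agent.Helper89.LX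
open Pool.Agent.Helper48.NS

noncomputable section

/-- VARIATIONAL PRINCIPLE for a family of conditions, without a hypothesis on the labels -/
theorem varif0 (T : Sp) (X : Type) {κ : Type} (A : κ → Part T) (G : ∀ k, (T.F k).Ω → X → Prop)
    (hG : ∀ k ω ω' c, (T.F k).μ ω ≠ 0 → (T.F k).μ ω' ≠ 0 → (T.F k).Z ω ω' → G k ω c → G k ω' c)
    (f : ∀ k, (T.F k).Ω → X → ℝ) (M : ℝ) (hf : ∀ k ω c, f k ω c ≤ M)
    (Cp : κ → ℝ) (C : ℝ) (hC : 0 ≤ C)
    (hA : ∀ i, Cp i < C) (ε : κ → ℕ → ℝ) (hε : ∀ i, Tendsto (ε i) UF (𝓝 0))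
    (sA : ∀ i, ∀ᶠ k in UF, ∀ x : CL (T.F k) X, x.Good (G k) →
      x.E (f k) - Cp i * (x.l.leak (A i k) / (T.F k).n) - ε i k ≤ (x.rs (A i k)).E (f k))
    (x₀ : ∀ k, CL (T.F k) X) (h₀ : ∀ᶠ k in UF, (x₀ k).Good (G k)) :
    ∃ y : ∀ k, CL (T.F k) X, (∀ᶠ k in UF, (y k).Good (G k)) ∧ Lab.DMf (fun k => (y k).l) A ∧
      ∀ᶠ k in UF, (x₀ k).E (f k) - C * ((x₀ k).l.info / (T.F k).n) ≤ (y k).E (f k) := by
  classical
  have hex : ∀ k, ∃ y : CL (T.F k) X, (x₀ k).Good (G k) → (y.Good (G k) ∧ (x₀ k).pot (f k) C ≤ y.pot (f k) C ∧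
      ∀ z : CL (T.F k) X, z.Good (G k) → z.pot (f k) C ≤ y.pot (f k) C + 1 / (T.F k).n) := by
    intro k
    by_cases h : (x₀ k).Good (G k)
    · obtain ⟨y, h1, h2, h3⟩ := CL.near_max (G k) (f k) M C (1 / (T.F k).n) (hf k) hC
        (div_pos one_pos (T.F k).pos) (x₀ k) h
      exact ⟨y, fun _ => ⟨h1, h2, h3⟩⟩
    · exact ⟨x₀ k, fun h' => absurd h' h⟩
  choose y hy using hex
  have hδ : Tendsto (fun k => 1 / (T.F k).n) UF (𝓝 0) := T.div_n_tendsto 1
  have hyG : ∀ᶠ k in UF, (y k).Good (G k) := by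
    filter_upwards [h₀] with k hk using (hy k hk).1
  have hDM : Lab.DMf (fun k => (y k).l) A := by
    intro i
    have h1 : Tendsto (fun k => (C - Cp i)⁻¹ * (1 / (T.F k).n + ε i k)) UF (𝓝 0) := by
      have := (hδ.add (hε i)).const_mul (C - Cp i)⁻¹
      rwa [add_zero, mul_zero] at this
    refine tendsto_of_tendsto_of_tendsto_of_le_of_le' tendsto_const_nhds h1 ?_ ?_
    · exact Eventually.of_forall fun k => div_nonneg (FLab.leak_nonneg _ _) (T.F k).pos.le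
    · filter_upwards [h₀, sA i] with k hk hs
      obtain ⟨a1, a2, a3⟩ := hy k hk
      have a4 := CL.small_leak (G k) (hG k) (f k) C (Cp i) (1 / (T.F k).n) (ε i k) (y k) a1 a3 (A i k) (hs (y k) a1)
      rw [inv_mul_eq_div, le_div_iff₀ (by linarith [hA i]), mul_comm]
      exact a4
  refine ⟨y, hyG, hDM, ?_⟩
  filter_upwards [h₀] with k hk
  obtain ⟨a1, a2, a3⟩ := hy k hk
  have a4 : 0 ≤ C * ((y k).l.info / (T.F k).n) := mul_nonneg hC (div_nonneg (FLab.info_nonneg _) (T.F k).pos.le)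
  unfold CL.pot at a2
  linarith

variable {ι : Type} [Fintype ι] [DecidableEq ι] {S : Sp} {Φ : Gau S ι} {x : ∀ k, FD (S.F k) ι} {κ : Type}

/-- THEOREM COST, abstract form, over an optimal form; the label of the form need not be maximal -/
theorem costg0 [Finite κ] {A : κ → Part S} (hsm : Gau.Hom Φ) (D : ℝ) (hD : 0 ≤ D)
    (hx : Φ.Optf A x) {κ' : Type} (B : κ' → Part (Ov x))
    (hBA : ∀ z : Lab (Ov x), z.DMf B → z.DMf (fun i => Lab.up (fun k => (x k).l) 1 one_pos (A i)))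
    (CA : ℝ) (hCA : 0 ≤ CA) (Cp : κ' → ℝ) (hCp : ∀ i, Cp i ≤ CA) (ε : κ' → ℕ → ℝ) (hε : ∀ i, Tendsto (ε i) UF (𝓝 0))
    (sA : ∀ i, ∀ᶠ k in UF, ∀ z : CL ((Ov x).F k) (ι → ℝ), z.Good (GdC x k) →
      z.E (fex Φ x D k) - Cp i * (z.l.leak (B i k) / ((Ov x).F k).n) - ε i k ≤ (z.rs (B i k)).E (fex Φ x D k))
    (y₀ : ∀ k, CL ((Ov x).F k) (ι → ℝ)) (h₀ : ∀ᶠ k in UF, (y₀ k).Good (GdC x k))
    (hU : UB (fun k => (y₀ k).l.info / ((Ov x).F k).n)) :
    ul (fun k => (y₀ k).E (fex Φ x D k)) ≤ CA * ul (fun k => (y₀ k).l.info / ((Ov x).F k).n) := by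
  by_contra hcon
  rw [not_le] at hcon
  have hf0 : ∀ k (ω : ((Ov x).F k).Ω) (c : ι → ℝ), 0 ≤ fex Φ x D k ω c := fun k ω c => ex_nonneg (S.F k).pos hD
  have hf1 : ∀ k (ω : ((Ov x).F k).Ω) (c : ι → ℝ), fex Φ x D k ω c ≤ D := fun k ω c => ex_le (S.F k).pos
  have hUE : UB (fun k => (y₀ k).E (fex Φ x D k)) := by
    apply UB_of_nonneg_le (C := D)
    · exact Eventually.of_forall fun k => (y₀ k).E_nonneg _ (hf0 k)
    · exact Eventually.of_forall fun k => (y₀ k).E_le _ _ (hf1 k)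
  set e := ul (fun k => (y₀ k).E (fex Φ x D k)) with he
  set i := ul (fun k => (y₀ k).l.info / ((Ov x).F k).n) with hi
  have hi0 : 0 ≤ i := const_le_ul hU (Eventually.of_forall fun k =>
    div_nonneg (FLab.info_nonneg _) ((Ov x).F k).pos.le)
  set θ : ℝ := e - CA * i with hθ
  have hθ0 : 0 < θ := by rw [hθ]; linarith
  set C : ℝ := CA + θ / (2 * (i + 1)) with hC
  have hC1 : CA < C := by
    have : 0 < θ / (2 * (i + 1)) := by positivity
    rw [hC]; linarith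
  have hC2 : C * i ≤ CA * i + θ / 2 := by
    have h1 : θ / (2 * (i + 1)) * i ≤ θ / 2 := by
      rw [div_mul_eq_mul_div, div_le_div_iff₀ (by positivity) (by norm_num)]
      nlinarith
    rw [hC]; nlinarith
  obtain ⟨y, hy1, hy2, hy4⟩ := varif0 (Ov x) (ι → ℝ) B
    (GdC x) (fun k ω ω' c h1 h2 hZ h => GdC_inv x k ω ω' c h1 h2 hZ h)
    (fex Φ x D) D hf1
    Cp C (by linarith) (fun i => (hCp i).trans_lt hC1) ε hε sA y₀ h₀
  apply no_gainf (y := y) hsm D hD hx hy1 (hBA _ hy2) (θ / 4) (by linarith)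
  have hlim : Tendsto (fun k => (y₀ k).E (fex Φ x D k) - C * ((y₀ k).l.info / ((Ov x).F k).n)) UF (𝓝 (e - C * i)) :=
    (ul_tendsto hUE).sub ((ul_tendsto hU).const_mul C)
  have h5 : θ / 4 < e - C * i := by rw [hθ] at *; linarith
  filter_upwards [hy4, hlim.eventually (lt_mem_nhds h5)] with k a b
  linarith

end

noncomputable section

variable {S : Sp} {M D : ℕ} {E : ℕ → ℕ} {ι : Type}

/-- the CONDITIONS of the window `c` with the point known to the resolution `R` -/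
def cndR (s : MSys S M E ι) (R : ∀ k, Setoid (S.F k).Ω) (c : ℝ) : Option ι → Part S
  | none => fun k => fc (R k)
  | some i => (s.lf i).win c

/-- STEP for a resolution `R` finer than the point -/
theorem step_ptR (Q : S.VV M) (R : ∀ k, Setoid (S.F k).Ω) (hR : ∀ k, R k ≤ Setoid.ker (Q.cellv 1 k)) (E₀ : ℝ)
    (x : ∀ k, FD (S.F k) (Mon M D)) : ∃ ε : ℕ → ℝ, Tendsto ε UF (𝓝 0) ∧
    ∀ᶠ k in UF, ∀ z : CL ((Ov x).F k) (Mon M D → ℝ), z.E (fex (gaq Q D) x E₀ k) - ε k ≤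
      (z.rs (Lab.up (fun k => (x k).l) 1 one_pos (fun k => fc (R k)) k)).E (fex (gaq Q D) x E₀ k) := by
  refine ⟨fun k => Real.logb 2 (cM M D 2) / (2 * (S.F k).n), ?_, Eventually.of_forall fun k z => ?_⟩
  · have h1 := S.div_n_tendsto (Real.logb 2 (cM M D 2) / 2)
    refine h1.congr fun k => ?_
    rw [div_div]
  have e1 : Lab.up (fun k => (x k).l) 1 one_pos (fun k => fc (R k)) k =
      fc (F := (Ov x).F k) (Setoid.comap (x k).l.p.π (R k)) := rfl
  rw [e1]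
  apply z.step_B
  intro ω ω' cf hω hω' hB hZ
  apply ex_scale (S.F k).pos (cM_one M D (by norm_num))
  show phi (S.dl 1 k) (cc cf) (Q.v k ((x k).l.p.π ω')) ≤ _ * phi (S.dl 1 k) (cc cf) (Q.v k ((x k).l.p.π ω))
  rw [phi_ccM, phi_ccM]
  apply ph_nearM cf _ _ (S.dl_pos 1 k) (by norm_num)
  intro i
  have hB' : R k ((x k).l.p.π ω) ((x k).l.p.π ω') := hB
  have h0 : Q.cellv 1 k ((x k).l.p.π ω) = Q.cellv 1 k ((x k).l.p.π ω') := hR k hB'
  have h1 : |Q.v k ((x k).l.p.π ω') i - Q.v k ((x k).l.p.π ω) i| ≤ S.dl 1 k :=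
    Q.cellv_close 1 k _ _ (Eq.symm h0) i
  linarith

/-- THEOREM COST for systems of leaves, the point known to the resolution `R`, over a form which is optimal for the
conditions `R` and the windows (its label need not be maximal) -/
theorem cost_R [Finite ι] (s : MSys S M E ι) (hED : 1 ≤ E D) {c : ℝ} (h0 : 0 ≤ c) (h1 : c < 1)
    (R : ∀ k, Setoid (S.F k).Ω) (hR : ∀ k, R k ≤ Setoid.ker (s.Q.cellv 1 k))
    (E₀ : ℝ) (hE0 : 0 ≤ E₀) (hE1 : E₀ ≤ E D * (1 - c)) {x : ∀ k, FD (S.F k) (Mon M D)}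
    (hx : (gaq s.Q D).Optf (cndR s R c) x) (y : ∀ k, CL ((Ov x).F k) (Mon M D → ℝ))
    (hy : ∀ᶠ k in UF, (y k).Good (GdC x k))
    (hU : UB (fun k => (y k).l.info / ((Ov x).F k).n)) :
    ul (fun k => (y k).E (fex (gaq s.Q D) x E₀ k)) ≤ E D * ul (fun k => (y k).l.info / ((Ov x).F k).n) := by
  classical
  have hN : (1 : ℝ) ≤ E D := by exact_mod_cast hED
  have hL : ∀ i, Nul S (fun k => (x k).l.leak ((s.lf i).win c k)) := fun i => Gau.Adf.dm _ hx.1 (some i)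
  set κ' := Option (Σ i : ι, Option (Fin (s.lf i).e)) with hκ'
  set B : κ' → Part (Ov x) := fun a => match a with
    | none => Lab.up (fun k => (x k).l) 1 one_pos (fun k => fc (R k))
    | some ⟨i, none⟩ => Lab.up (fun k => (x k).l) 1 one_pos (fun k => fc (tS (s.lf i) c k))
    | some ⟨i, some j⟩ => Lab.up (fun k => (x k).l) 1 one_pos (fun k => fc (cS (s.lf i) c j k)) with hB
  have hstep : ∀ a : κ', ∃ ε : ℕ → ℝ, Tendsto ε UF (𝓝 0) ∧ ∀ᶠ k in UF, ∀ z : CL ((Ov x).F k) (Mon M D → ℝ),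
      z.Good (GdC x k) → z.E (fex (gaq s.Q D) x E₀ k) - E D * (z.l.leak (B a k) / ((Ov x).F k).n) - ε k ≤
        (z.rs (B a k)).E (fex (gaq s.Q D) x E₀ k) := by
    intro a
    have hlk : ∀ (k : ℕ) (z : CL ((Ov x).F k) (Mon M D → ℝ)), 0 ≤ E D * (z.l.leak (B a k) / ((Ov x).F k).n) :=
      fun k z => mul_nonneg (by linarith) (div_nonneg (FLab.leak_nonneg _ _) ((Ov x).F k).pos.le)
    rcases a with _ | ⟨i, _ | j⟩
    · obtain ⟨ε, hε, h⟩ := step_ptR (D := D) s.Q R hR E₀ x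
      refine ⟨ε, hε, ?_⟩
      filter_upwards [h] with k hk z _
      have u1 := hk z
      have u2 := hlk k z
      show z.E _ - _ - ε k ≤ (z.rs (Lab.up (fun k => (x k).l) 1 one_pos (fun k => fc (R k)) k)).E _
      linarith
    · obtain ⟨ε, hε, h⟩ := step_leaf_t (D := D) (s.lf i) E₀ c x
      refine ⟨ε, hε, ?_⟩
      filter_upwards [h] with k hk z _
      have u1 := hk z
      have u2 := hlk k z
      show z.E _ - _ - ε k ≤ (z.rs (Lab.up (fun k => (x k).l) 1 one_pos (fun k => fc (tS (s.lf i) c k)) k)).E _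
      linarith
    · obtain ⟨ε, hε, h⟩ := step_leaf_c (D := D) (s.lf i) hED h0 h1 E₀ hE0 hE1 x (hL i) j
      refine ⟨ε, hε, ?_⟩
      filter_upwards [h] with k hk z _ using hk z
  choose ε hε hs using hstep
  refine costg0 (A := cndR s R c) (gaq_hom s.Q D) E₀ hE0 hx B ?_ (E D) (by linarith)
    (fun _ => (E D : ℝ)) (fun _ => le_rfl) ε hε hs y hy hU
  intro z hz i
  rcases i with _ | i
  · exact hz none
  · exact win_leak (s.lf i) h0 h1.le (hL i) z (hz (some ⟨i, none⟩)) (fun j => hz (some ⟨i, some j⟩))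

end

end Pool.Agent.Helper87.NSL
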