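import Pool.Agent.Helper38.NSL.He2
import Pool.Agent.Helper81.CPY.Amv

/-! COPIES FOR ALL TYPES. Finitely many labels over one space, independent given the space. If every label has leak exactly
zero at a partition of the space, a transversal family stays transversal if these partitions are replaced by the labels. -/

set_option autoImplicit false

namespace Pool.Agent.Helper87.NSL

open Finset Filter Topology Matrix Pool.Agent.Helper69.RK Pool.Agent.Helper31.EC Pool.Agent.Helper31.EC.Sp
open Pool.Agent.Helper40.EL Pool.Agent.Helper84.MT Pool.Agent.Helper38.NSL Pool.Agent.Helper81.CPY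

noncomputable section

variable {S T : Sp} {M D : ℕ} {κ : Type}

open Classical in
/-- REPLACEMENT of one partition of a transversal family by a partition of an extension which is independent of the old
space given the old partition -/
theorem NHE_upd {Q : S.VV M} {W : κ → ∀ k, Setoid (S.F k).Ω} {K : ℝ} (h : NHE Q D W K) (i0 : κ) (q : Pj T S)
    (V : ∀ k, Setoid (T.F k).Ω)
    (hV : ∀ᶠ k in UF, I (fc (V k)) (q.fp k).top ((q.fp k).map (fc (W i0 k))) = 0) :
    NHE (S := T) (q.vv Q) D (fun i => if i = i0 then V else q.pb (W i)) K := by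
  have h1 : NHE Q D (optW (W i0) (fun i : {i // i ≠ i0} => W i)) K := by
    refine h.ren (fun i => if hi : i = i0 then none else some ⟨i, hi⟩) (Eventually.of_forall ?_)
    intro k i ω ω' _ _ _ hW
    by_cases hi : i = i0
    · subst hi
      rw [dif_pos rfl]
      exact hW
    · rw [dif_neg hi]
      exact hW
  have h2 := h1.copy q V hV
  refine h2.ren (fun i => match i with
    | none => i0
    | some i => i.1) (Eventually.of_forall ?_)
  intro k i ω ω' _ _ _ hW
  cases i with
  | none =>
    show (if i0 = i0 then V else q.pb (W i0)) k ω ω'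
    rw [if_pos rfl]
    exact hW
  | some i =>
    show (if i.1 = i0 then V else q.pb (W i.1)) k ω ω'
    rw [if_neg i.2]
    exact hW

/-- the amalgam of two extensions over the space itself -/
abbrev amS {W R : Sp} (p : Pj W S) (q : Pj R S) : AmD W R := amv p q (fun k (ω : (S.F k).Ω) => ω)

theorem amS_eq {W R : Sp} (p : Pj W S) (q : Pj R S) (k : ℕ) (w : ((amS p q).sp.F k).Ω)
    (h : ((amS p q).sp.F k).μ w ≠ 0) : p.π k w.1 = q.π k w.2 := amv_eq p q _ k w h

/-- a label without leak at a partition is independent of every other extension given the partition -/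
theorem amS_indep {W : Sp} (p : Pj W S) (l : Lab S) (C : ∀ k, Setoid (S.F k).Ω) (k : ℕ)
    (hC : (l k).leak (fc (C k)) = 0) :
    I (fc (Setoid.comap ((amS p l.pj).p2.π k) ((l k).V))) ((amS p l.pj).p1.fp k).top
      (((amS p l.pj).p1.fp k).map (fc (p.pb C k))) = 0 := by
  set p1 := (amS p l.pj).p1.fp k with hp1
  set p2 := (amS p l.pj).p2.fp k with hp2
  have e0 : (fc (Setoid.comap ((amS p l.pj).p2.π k) ((l k).V)) : FL ((amS p l.pj).sp.F k)) = p2.map (l k).v := rfl
  have e1 : (fc (p.pb C k) : FL (W.F k)) = (p.fp k).map (fc (C k)) := rfl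
  rw [e0, e1]
  -- the top of the space is common
  have hker : Setoid.ker (fun (ω : (S.F k).Ω) => ω) = ⊥ := by
    ext a b
    exact Iff.rfl
  have hcom : p1.map ((p.fp k).map (fc (⊥ : Setoid (S.F k).Ω))) = p2.map (((l.pj).fp k).map (fc (⊥ : Setoid (S.F k).Ω))) := by
    have := amv_commonC p l.pj (fun k (ω : (S.F k).Ω) => ω) k
    rw [hker] at this
    exact this
  have hind : I p1.top (p2.map (l k).v) (p1.map ((p.fp k).map (fc (⊥ : Setoid (S.F k).Ω)))) = 0 := by
    have h1 := amv_indep p l.pj (fun k (ω : (S.F k).Ω) => ω) k (fc ⊥) (l k).v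
    rw [hker, fp_map_bot] at h1
    exact h1
  have hle : p1.map ((p.fp k).map (fc (C k))) ≤ p1.map ((p.fp k).map (fc (⊥ : Setoid (S.F k).Ω))) := by
    apply p1.map_mono
    apply (p.fp k).map_mono
    exact fc_mono bot_le
  have hcomC : p1.map ((p.fp k).map (fc (C k))) = p2.map (((l.pj).fp k).map (fc (C k))) :=
    amv_common p l.pj (fun k (ω : (S.F k).Ω) => ω) k (C k) (fun ω ω' _ _ _ h => by
      have h' : ω = ω' := h
      rw [h'])
  have h2 : I (p2.map (l k).v) p1.top (p1.map ((p.fp k).map (fc (C k)))) ≤
      I (p2.map (l k).v) (p1.map ((p.fp k).map (fc (⊥ : Setoid (S.F k).Ω))) ⊔ p1.top)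
        (p1.map ((p.fp k).map (fc (C k)))) := I_mono_right (le_sup_right.trans le_sup_left)
  have h3 := I_chain_right (p2.map (l k).v) (p1.map ((p.fp k).map (fc (⊥ : Setoid (S.F k).Ω)))) p1.top
    (p1.map ((p.fp k).map (fc (C k))))
  have h4 : I (p2.map (l k).v) p1.top (p1.map ((p.fp k).map (fc (⊥ : Setoid (S.F k).Ω))) ⊔
      p1.map ((p.fp k).map (fc (C k)))) = 0 := by
    rw [sup_eq_left.mpr hle, I_comm]
    exact hind
  have h5 : I (p2.map (l k).v) (p1.map ((p.fp k).map (fc (⊥ : Setoid (S.F k).Ω))))
      (p1.map ((p.fp k).map (fc (C k)))) = 0 := by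
    rw [hcom, hcomC]
    have h6 : ((l.pj).fp k).map (fc (⊥ : Setoid (S.F k).Ω)) = (l k).p.top := fp_map_bot l.pj k
    have h7 := p2.I_map (l k).v (((l.pj).fp k).map (fc (⊥ : Setoid (S.F k).Ω))) (((l.pj).fp k).map (fc (C k)))
    refine h7.trans ?_
    rw [h6]
    exact hC
  rw [h4, add_zero, h5] at h3
  rw [h3] at h2
  exact le_antisymm h2 (I_nonneg _ _ _)

theorem NHE_id {Q : S.VV M} {W : κ → ∀ k, Setoid (S.F k).Ω} {K : ℝ} (h : NHE Q D W K) :
    NHE (S := S) ((Pj.id S).vv Q) D (fun i => (Pj.id S).pb (W i)) K := h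

/-- ALL COPIES AT ONCE: finitely many labels over the space, independent given the space; the labels have leak exactly zero
at partitions `C i` of the space; transversality passes from `U`, `C i` to `U`, `l i` -/
theorem exists_cps (n : ℕ) : ∀ (l : Fin n → Lab S), ∃ (W : Sp) (p : Pj W S) (q : ∀ i, Pj W (l i).sp),
    (∀ i k w, (W.F k).μ w ≠ 0 → (l i k).p.π ((q i).π k w) = p.π k w) ∧
    ∀ (M D : ℕ) (Q : S.VV M) (K : ℝ) (κ : Type) (U : κ → ∀ k, Setoid (S.F k).Ω) (C : Fin n → ∀ k, Setoid (S.F k).Ω),
      (∀ i, ∀ᶠ k in UF, (l i k).leak (fc (C i k)) = 0) → NHE Q D (Sum.elim U C) K →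
      NHE (S := W) (p.vv Q) D (Sum.elim (fun i => p.pb (U i)) (fun i => (q i).pb (l i).V)) K := by
  classical
  induction n with
  | zero =>
    intro l
    refine ⟨S, Pj.id S, fun i => i.elim0, fun i => i.elim0, fun M D Q K κ U C _ h => ?_⟩
    refine (NHE_id h).ren (fun o => match o with
      | Sum.inl i => Sum.inl i
      | Sum.inr i => Sum.inr i) (Eventually.of_forall ?_)
    intro k o ω ω' _ _ _ hW
    rcases o with i | i
    · exact hW
    · exact i.elim0
  | succ n ih =>
    intro l
    obtain ⟨W, p, q, h1, h2⟩ := ih (fun i => l i.castSucc)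
    set A : AmD W (l (Fin.last n)).sp := amS p (l (Fin.last n)).pj with hA
    set qq : ∀ i, Pj A.sp (l i).sp := fun i => Fin.lastCases (motive := fun i => Pj A.sp (l i).sp) A.p2
      (fun i => A.p1.comp (q i)) i with hqq
    have hq1 : qq (Fin.last n) = A.p2 := by rw [hqq]; exact Fin.lastCases_last
    have hq2 : ∀ i : Fin n, qq i.castSucc = A.p1.comp (q i) := fun i => by
      rw [hqq]
      exact Fin.lastCases_castSucc _
    refine ⟨A.sp, A.p1.comp p, qq, ?_, ?_⟩
    · intro i
      refine Fin.lastCases ?_ (fun i => ?_) i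
      · intro k w hw
        have e1 : (qq (Fin.last n)).π k w = A.p2.π k w := by rw [hq1]
        exact (congrArg (l (Fin.last n) k).p.π e1).trans (amS_eq p (l (Fin.last n)).pj k w hw).symm
      · intro k w hw
        have e1 : (qq i.castSucc).π k w = (A.p1.comp (q i)).π k w := by rw [hq2]
        exact (congrArg (l i.castSucc k).p.π e1).trans (h1 i k _ (A.p1.supp k w hw))
    · intro M D Q K κ U C hC h
      -- the last condition as a member of the other family
      have a1 : NHE Q D (Sum.elim (Sum.elim U (fun _ : Unit => C (Fin.last n))) (fun i : Fin n => C i.castSucc)) K := by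
        set f : Fin (n + 1) → (κ ⊕ Unit) ⊕ Fin n := fun i => Fin.lastCases (motive := fun _ => (κ ⊕ Unit) ⊕ Fin n)
          (Sum.inl (Sum.inr ())) (fun i => Sum.inr i) i with hf
        have hf1 : f (Fin.last n) = Sum.inl (Sum.inr ()) := by rw [hf]; exact Fin.lastCases_last
        have hf2 : ∀ i : Fin n, f i.castSucc = Sum.inr i := fun i => by rw [hf]; exact Fin.lastCases_castSucc _
        refine h.ren (Sum.elim (fun i => Sum.inl (Sum.inl i)) f) (Eventually.of_forall ?_)
        intro k o ω ω' _ _ _ hW
        rcases o with i | i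
        · exact hW
        · revert hW
          refine Fin.lastCases ?_ (fun i => ?_) i
          · intro hW
            show Sum.elim (Sum.elim U (fun _ : Unit => C (Fin.last n))) (fun i : Fin n => C i.castSucc)
              (f (Fin.last n)) k ω ω'
            rw [hf1]
            exact hW
          · intro hW
            show Sum.elim (Sum.elim U (fun _ : Unit => C (Fin.last n))) (fun i : Fin n => C i.castSucc)
              (f i.castSucc) k ω ω'
            rw [hf2]
            exact hW
      have a2 := h2 M D Q K (κ ⊕ Unit) (Sum.elim U (fun _ : Unit => C (Fin.last n))) (fun i : Fin n => C i.castSucc)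
        (fun i => hC i.castSucc) a1
      have a3 := NHE_upd a2 (Sum.inl (Sum.inr ())) A.p1 (A.p2.pb (l (Fin.last n)).V) (by
        filter_upwards [hC (Fin.last n)] with k hk
        exact amS_indep p (l (Fin.last n)) (C (Fin.last n)) k hk)
      refine a3.ren (fun o => match o with
        | Sum.inl (Sum.inl i) => Sum.inl i
        | Sum.inl (Sum.inr _) => Sum.inr (Fin.last n)
        | Sum.inr i => Sum.inr i.castSucc) (Eventually.of_forall ?_)
      intro k o ω ω' _ _ _ hW
      rcases o with (i | i) | i
      · rw [if_neg (by simp)] at hW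
        exact hW
      · rw [if_pos rfl] at hW
        show (qq (Fin.last n)).pb (l (Fin.last n)).V k ω ω'
        rw [hq1]
        exact hW
      · rw [if_neg (by simp)] at hW
        show (qq i.castSucc).pb (l i.castSucc).V k ω ω'
        rw [hq2]
        exact hW

end

end Pool.Agent.Helper87.NSL
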