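import Pool.Agent.Helper87.NSL.Unt
import Pool.Agent.Helper38.NSL.He2

/-! CLAIM (K-labels and type-labels): over a transversal family of windows of types with `v` unit directions, an optimal
form whose label has entropy at most `v (1 - c)` of the point has no exponents. -/

set_option autoImplicit false

namespace Pool.Agent.Helper87.NSL

open Finset Filter Topology Matrix Pool.Agent.Helper69.RK Pool.Agent.Helper31.EC Pool.Agent.Helper31.EC.Sp
open Pool.Agent.Helper40.EL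
open Pool.Agent.Helper84.MT Pool.Agent.Helper3.LF Pool.Agent.Helper59.LF Pool.Agent.Helper89.LX
open Pool.Agent.Helper48.NS Pool.Agent.Helper48.LIP Pool.Agent.Helper38.NSL
open Pool.Agent.Helper14.MC (vx)

noncomputable section

variable {S : Sp} {M D : ℕ} {E : ℕ → ℕ} {ι : Type}

/-- CLAIM for optimal K-forms -/
theorem claimK_vol [Finite ι] {κ : Type} [Finite κ] [Nonempty κ] (s : MSys S M E ι) (hED : 1 ≤ E D) {c : ℝ} (h0 : 0 ≤ c)
    (h1 : c < 1) (R : ∀ k, Setoid (S.F k).Ω) (hR : ∀ k, R k ≤ Setoid.ker (s.Q.cellv 1 k)) (V : κ → ι) {K : ℝ}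
    (hN : NHE s.Q D (optW R fun j => wn s c (V j)) K) (hK : 0 ≤ K)
    {x : ∀ k, FD (S.F k) (Mon M D)} (hx : (gaq s.Q D).OptfK (LC.kz (fun k => fc (R k))) (cndR s R c) x)
    (hH : ∀ j, HLe s c (V j) x) : (M : ℝ) ≤ vol s.Q D x :=
  hN.vol_geK hK hx.1.1 hx.1.2 (fun j => knJ_iff.mp (lemA s hED h0 h1 (FmG_of_Adf hx.1.1)
    (Pool.Agent.Helper17.KL.costP_of_optK s hED h0 h1 R hR hx) (V j) (Gau.Adf.dm _ hx.1.1 (some (V j))) (hH j)))

/-- CLAIM for optimal forms of type-labels -/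
theorem claimT_vol [Finite ι] {κ : Type} [Finite κ] [Nonempty κ] (s : MSys S M E ι) (hED : 1 ≤ E D) {c : ℝ} (h0 : 0 ≤ c)
    (h1 : c < 1) (V : κ → ι) {K : ℝ} (hN : NHE s.Q D (fun j => wn s c (V j)) K) (hK : 0 ≤ K)
    {x : ∀ k, FD (S.F k) (Mon M D)} (hx : (gaq s.Q D).Optf (fun i => (s.lf i).win c) x)
    (hH : ∀ j, HLe s c (V j) x) : (M : ℝ) ≤ vol s.Q D x :=
  hN.vol_ge hK hx.1 (fun j => knJ_iff.mp (lemA s hED h0 h1 (FmG_of_Adf hx.1)
    (Pool.Agent.Helper17.KL.costP_of_typ s hED h0 h1 hx) (V j) (Gau.Adf.dm _ hx.1 (V j)) (hH j)))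

/-- rate of the entropy of the point over the label of `x` -/
def hRt (s : MSys S M E ι) (x : ∀ k, FD (S.F k) (Mon M D)) (k : ℕ) : ℝ :=
  h ((x k).l.p.map (ptF s.Q k)) (x k).l.v / (S.F k).n

theorem hRt_UB (s : MSys S M E ι) (x : ∀ k, FD (S.F k) (Mon M D)) : UB (hRt s x) := by
  have hc : UB (fun k => H (ptF s.Q k) / (S.F k).n) := pcd_Bd s.Q
  refine UB.sandwich (UB_const 0) hc (Eventually.of_forall fun k => div_nonneg (h_nonneg _ _) (S.F k).pos.le)
    (Eventually.of_forall fun k => ?_)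
  apply div_le_div_of_nonneg_right _ (S.F k).pos.le
  exact (h_le_H _ _).trans ((x k).l.p.H_map (ptF s.Q k)).le

/-- an entropy over the label of at most `v (1 - c)`, types with `v` unit directions -/
theorem HLe_of_unit (s : MSys S M E ι) {c : ℝ} (h0 : 0 ≤ c) (h1 : c ≤ 1) {x : ∀ k, FD (S.F k) (Mon M D)} {i : ι} {v : ℕ}
    {σ : Fin v → Fin M} {τ : Fin v → Fin (s.lf i).e} (hu : UDir (s.lf i) σ τ)
    (hx : ul (hRt s x) ≤ v * (1 - c)) : HLe s c i x := by
  refine HLe_of_num (v := v * (1 - c)) (fun ε hε => ?_) (hpt_of_unit (s.lf i) h0 h1 hu)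
  filter_upwards [(ul_tendsto (hRt_UB s x)).eventually (gt_mem_nhds (show ul (hRt s x) < v * (1 - c) + ε by linarith))]
    with k hk
  have hn := (S.F k).pos
  unfold hRt at hk
  rw [div_lt_iff₀ hn] at hk
  exact hk.le

end

end Pool.Agent.Helper87.NSL
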