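import Pool.Agent.Helper87.NSL.Cps
import Pool.Agent.Helper87.NSL.Clm2
import Pool.Agent.Helper38.PUR.Use
import Pool.Agent.Helper38.NSL.Ht
import Pool.Agent.Helper81.CP2.Jnt
import Pool.Agent.Helper81.CPY.Imim
import Pool.Agent.Helper80.SUB.Def
import Pool.Agent.Helper69.LAB.Sub
import Pool.Agent.Helper76.LG.Vtx
import Pool.Agent.Helper14.NHG.Nhb

/-! NSLs, PURE VERSION (v2): K-hulls do not appear in limits of systems which are transversal at the windows `c > 0`.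
Frozen statements. -/

set_option autoImplicit false

namespace Pool.Agent.Helper87.NSL

open Finset Filter Topology Matrix Pool.Agent.Helper69.RK Pool.Agent.Helper31.EC Pool.Agent.Helper31.EC.Sp
open Pool.Agent.Helper40.EL Pool.Agent.Helper84.MT Pool.Agent.Helper3.LF
open Pool.Agent.Helper89.LX Pool.Agent.Helper38.NSL
open Pool.Agent.Helper36.AM (MCl STu)
open Pool.Agent.Helper76.DIM (pck CutF VLeaf)
open Pool.Agent.Helper76.LG (VLeafX)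
open Pool.Agent.Helper81.CP2 (Rows HRw ini)
open Pool.Agent.Helper80.SUB (Sub SubCl)
open Pool.Agent.Helper38.PUR (Pr Rch Bad Rec LK prs)
open Pool.Agent.Helper14.NHG (NHC)

noncomputable section

variable {S T : Sp} {M N D g r : ℕ} {E : ℕ → ℕ} {ι : Type}

/-! ### labels, optimal forms, good systems -/

/-- the finest cell of the point -/
@[instance_reducible] def cel (Q : S.VV M) : ∀ k, Setoid (S.F k).Ω := fun k => Setoid.ker (Q.cellv 1 k)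

/-- K-OPTIMAL forms of the pair `(s, R)`, window `0` -/
def KOpt (s : MSys S M E ι) (R : ∀ k, Setoid (S.F k).Ω) (D : ℕ) (x : ∀ k, FD (S.F k) (Mon M D)) : Prop :=
  (gaq s.Q D).OptfK (LC.kz (fun k => fc (R k))) (cndR s R 0) x

/-- K-LABELS of the pair `(s, R)`, window `0` (also `R = bot`) -/
structure KLb (s : MSys S M E ι) (R : ∀ k, Setoid (S.F k).Ω) (l : Lab S) : Prop where
  nul : ∀ i, Nul S (fun k => (l k).leak ((s.lf i).win 0 k))
  ex : ∀ᶠ k in UF, (l k).leak (fc (R k)) = 0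

/-- GOOD: over every K-label of the window `0` which sees the cell of the point, the point fills the K-hull -/
def Gd (s : MSys S M E ι) : Prop := ∀ ε : ℝ, 0 < ε → ∃ D : ℕ, 1 ≤ D ∧ ∀ x : ∀ k, FD (S.F k) (Mon M D),
  KOpt s (cel s.Q) D x → ∀ l : Lab S, KLb s (cel s.Q) l → vol s.Q D x ≤ H (up1 l (s.Q.dg 1)) + ε

/-- the type `j` has at least `v` UNIT DIRECTIONS, on all events (the text of helper29) -/
def Ud (v : ℕ) (s : MSys S M E ι) (j : ι) : Prop := ∀ (T : Sp) (p : Pj T S) (A : ∀ k, (T.F k).Ω → Prop)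
  (hA : 0 < ul (T.pr A)) (c c' : ℝ), 0 ≤ c → c ≤ c' → c' ≤ 1 →
    (v : ℝ) * (c' - c) ≤ ul (fun k => h (fc (Setoid.ker ((s.im p A hA).Q.cellv c' k)))
      (((s.im p A hA).lf j).win c k) / ((Sp.im p A).F k).n)

/-- every type has at least `v` unit directions -/
def UDe (v : ℕ) (s : MSys S M E ι) : Prop := ∀ j, Ud v s j

/-- closed under events of extensions -/
def ImCl (N : ℕ) (Cl : MCl N) : Prop := ∀ (S : Sp) (g r : ℕ) (s : MSys S N (lin g) (Fin r)), Cl S g r s →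
  ∀ (T : Sp) (p : Pj T S) (A : ∀ k, (T.F k).Ω → Prop) (hA : 0 < ul (T.pr A)), Cl (Sp.im p A) g r (s.im p A hA)

/-- CLASSES OF PAIRS `(s, R)`: the point is a function of `R` and the base, the entropy of the point is not full, every type
has `v` unit directions, transversal at the windows `c > 0` with a loss proportional to `c` -/
structure TTc (Cl : MCl N) (v : ℕ) (K K' : ℕ → ℝ)
    (TT : ∀ S : Sp, MSys S N (lin g) (Fin r) → (∀ k, Setoid (S.F k).Ω) → Prop) : Prop where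
  g1 : 1 ≤ g
  r0 : 0 < r
  K0 : ∀ D, 0 ≤ K D
  pull : ∀ S s R, TT S s R → ∀ (T : Sp) (p : Pj T S), TT T (s.pull p) (p.pb R)
  im : ∀ S s R, TT S s R → ∀ (T : Sp) (p : Pj T S) (A : ∀ k, (T.F k).Ω → Prop) (hA : 0 < ul (T.pr A)),
    TT (Sp.im p A) (s.im p A hA) R
  trn : ∀ S s R, TT S s R → ∀ (e : ℝ) (he : 0 < e) (h1 : e ≤ 1), TT (S.chg S.tr e he) (s.trn e he h1) R
  lit : ∀ S s R, TT S s R → KnS R s.Q.v
  cl : ∀ S s R, TT S s R → Cl S g r s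
  ud : ∀ S s R, TT S s R → UDe v s
  lt : ∀ S s R, TT S s R → H (s.Q.dg 1) < N
  nh : ∀ S s R, TT S s R → ∀ D : ℕ, NHC s D R (fun i => i) (K D) (K' D)

/-- **NSLs**: the K-hulls of the members are trivial -/
def NSLs (N : ℕ) : Prop := ∀ (Cl : MCl N) (v g r : ℕ) (K K' : ℕ → ℝ)
  (TT : ∀ S : Sp, MSys S N (lin g) (Fin r) → (∀ k, Setoid (S.F k).Ω) → Prop), (∀ m, m < N → STu m) → ImCl N Cl →
  SubCl Cl → (∀ (S : Sp) (g r : ℕ) (s : MSys S N (lin g) (Fin r)), 1 ≤ g → 0 < r → Cl S g r s → UDe (v + 1) s → Gd s) →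
  TTc Cl v K K' TT → ∀ S s R, TT S s R → ∀ D, 1 ≤ D → ∀ x, KOpt s R D x → (N : ℝ) ≤ vol s.Q D x

/-! ### rows -/

/-- [BAD] (helper38): from one non-trivial form to an event all of whose events (of extensions, several times) have
non-trivial forms -/
def ST_BAD : Prop := ∀ (S : Sp) (N g r : ℕ) (s : MSys S N (lin g) (Fin r)) (R : ∀ k, Setoid (S.F k).Ω) (D : ℕ)
  (x : ∀ k, FD (S.F k) (Mon N D)), 1 ≤ g → 1 ≤ D → (∀ k, R k ≤ Setoid.ker (s.Q.cellv 1 k)) → KOpt s R D x →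
  vol s.Q D x < N → ∃ (A : ∀ k, (S.F k).Ω → Prop) (hA : 0 < ul (S.pr A)), ∀ t : Pr N g (Fin r),
    Rch (fun _ _ _ => True) (Pr.im ⟨S, s, R⟩ A hA) t → Bad t

/-- [CUTF] (helper38): the records as cuts, one degree -/
def ST_CUTF : Prop := ∀ (S : Sp) (N g r v : ℕ) (s : MSys S N (lin g) (Fin r)) (R V : ∀ k, Setoid (S.F k).Ω)
  (σ : Fin v → Fin N) (b : ℝ), v < N → Function.Injective σ → 0 < b → LK s R V →
  (v : ℝ) ≤ H (up1 (Lab.ofZ V) ((prs s σ).Q.dg 1)) → (∀ q, (∀ j, σ j ≠ q) → Rec s R V σ q b) →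
  ∃ (D : ℕ) (G : Fin N → ∀ k, (S.F k).Ω → Matrix (Mon (v + 1) D) (Mon (v + 1) D) ℝ), 1 ≤ D ∧ CutF V s.Q σ b D G

/-- [CUTV]: at the level `b` the cut gives a K-form of volume less than `N` -/
def ST_CUTV : Prop := ∀ (S : Sp) (N g r v : ℕ) (s : MSys S N (lin g) (Fin r)) (R V : ∀ k, Setoid (S.F k).Ω)
  (σ : Fin v → Fin N) (b : ℝ) (h0 : 0 < b) (h1 : b ≤ 1) (D : ℕ)
  (G : Fin N → ∀ k, (S.F k).Ω → Matrix (Mon (v + 1) D) (Mon (v + 1) D) ℝ), v < N → 1 ≤ D → LK s R V →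
  CutF V s.Q σ b D G → ∃ x : ∀ k, FD ((S.chg S.tr b h0).F k) (Mon N D),
    (gaq (s.trn b h0 h1).Q D).AdfK (LC.kz (fun k => fc (R k))) (cndR (s.trn b h0 h1) R 0) x ∧
      vol (s.trn b h0 h1).Q D x < N

/-- [HLF]: the entropy of the level `b` over the label -/
def ST_HLF : Prop := ∀ (S : Sp) (N v g L : ℕ) (Q : S.VV N) (V La : ∀ k, Setoid (S.F k).Ω) (σ : Fin v → Fin N) (b : ℝ)
  (hb : 0 < b) (Y : S.VV v) (n : ℕ → ℝ) (c : ∀ k, (S.F k).Ω → Fin v → ℤ) (β : ∀ k, (S.F k).Ω → Fin L)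
  (A : ∀ k, (S.F k).Ω → Prop) (f : Leaf (S.chg S.tr b hb) (Q.chg S.tr b hb) (lin g)), b ≤ 1 →
  VLeafX V Q σ b hb g L La Y n c β A f → ∀ ε : ℝ, 0 < ε → ∀ᶠ k in UF,
    h (fc (Setoid.ker (Q.cellv b k))) (fc (V k)) ≤ (v * b + ε) * (S.F k).n

/-- [UDV]: the leaves over full coordinates have `v` unit directions -/
def ST_UDV : Prop := ∀ (S : Sp) (N v g L r D : ℕ) (Q : S.VV N) (V La : Fin r → ∀ k, Setoid (S.F k).Ω)
  (σ : Fin v → Fin N) (b : ℝ) (hb : 0 < b)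
  (G : Fin r → Fin N → ∀ k, (S.F k).Ω → Matrix (Mon (v + 1) D) (Mon (v + 1) D) ℝ) (Y : Fin r → S.VV v)
  (n : Fin r → ℕ → ℝ) (c : Fin r → ∀ k, (S.F k).Ω → Fin v → ℤ) (β : Fin r → ∀ k, (S.F k).Ω → Fin L)
  (A : Fin r → ∀ k, (S.F k).Ω → Prop) (f : Fin r → Leaf (S.chg S.tr b hb) (Q.chg S.tr b hb) (lin g)), b ≤ 1 →
  (∀ i, CutF (V i) Q σ b D (G i)) → (∀ i, VLeafX (V i) Q σ b hb g L (La i) (Y i) (n i) (c i) (β i) (A i) (f i)) →
  UDe v (⟨Q.chg S.tr b hb, f⟩ : MSys (S.chg S.tr b hb) N (lin g) (Fin r))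

/-- [ROW] (helper30): rows over finer K-labels -/
def ST_ROW : Prop := ∀ (S : Sp) (N g r v : ℕ) (s : MSys S N (lin g) (Fin r)) (V : ∀ k, Setoid (S.F k).Ω)
  (τ : Fin N → Fin N) (hv : v ≤ N), 1 ≤ g → 0 < r → (∀ m, m < N → STu m) → Gd s → LK s (cel s.Q) V →
  Function.Surjective τ →
  (∀ l : Lab S, KLb s (cel s.Q) l → (v : ℝ) ≤ H (up1 l ((prs s (ini τ hv)).Q.dg 1))) → ∀ ε : ℝ, 0 < ε →
  ∃ (W : Lab S) (D : Fin N → ℕ)
    (A : ∀ (j : Fin N) (k : ℕ), (W k).T.Ω → Matrix (Mon ((j : ℕ) + 1) (D j)) (Mon ((j : ℕ) + 1) (D j)) ℝ)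
    (a : Fin N → ℝ), (∀ᶠ k in UF, (W k).p.map (fc (V k)) ≤ (W k).v) ∧ KLb s (cel s.Q) W ∧ Rows s.Q τ v W D A a ε

/-- the projection of an event of an extension onto the event of the base -/
def ST_SIM : Prop := ∀ (S T U : Sp) (M : ℕ) (E E' : ℕ → ℕ) (ι κ : Type) (s : MSys S M E ι) (p : Pj T S)
  (s' : MSys T M E' κ), Sub s p s' → ∀ (q : Pj U T) (A : ∀ k, (U.F k).Ω → Prop) (hA : 0 < ul (U.pr A)),
    ∃ p' : Pj (Sp.im q A) (Sp.im (q.comp p) A), (∀ k ω, p'.π k ω = p.π k ω) ∧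
      Sub (s.im (q.comp p) A hA) p' (s'.im q A hA)

end

end Pool.Agent.Helper87.NSL
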