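import Pool.Agent.Helper87.NSL.St
import Pool.Agent.Helper66.NJ.Cnt
import Pool.Agent.Helper91.EXA.Tru

/-! THE CLAIM for literal labels with full coordinates and cuts: their number of full coordinates is larger than the number of
unit directions of the types, if the system is transversal. -/

set_option autoImplicit false

namespace Pool.Agent.Helper87.NSL

open Finset Filter Topology Matrix Pool.Agent.Helper69.RK Pool.Agent.Helper31.EC Pool.Agent.Helper31.EC.Sp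
open Pool.Agent.Helper40.EL Pool.Agent.Helper84.MT Pool.Agent.Helper3.LF
open Pool.Agent.Helper89.LX Pool.Agent.Helper38.NSL
open Pool.Agent.Helper76.DIM (pck CutF VLeaf)
open Pool.Agent.Helper76.LG (VLeafX)
open Pool.Agent.Helper38.PUR (LK)
open Pool.Agent.Helper66.NJ
open Pool.Agent.Helper3.KL (vol_optK_le vol_optK_eq)

noncomputable section

variable {S T : Sp} {M N D g r v : ℕ} {E : ℕ → ℕ} {ι : Type}

/-- the resolution with the cells of the point -/
@[instance_reducible] def rcl (Q : S.VV M) (R : ∀ k, Setoid (S.F k).Ω) : ∀ k, Setoid (S.F k).Ω :=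
  fun k => R k ⊓ Setoid.ker (Q.cellv 1 k)

theorem cel_kn {Q : S.VV M} {R : ∀ k, Setoid (S.F k).Ω} (h : KnS R Q.v) (c : ℝ) :
    ∀ᶠ k in UF, ∀ ω ω', (S.F k).μ ω ≠ 0 → (S.F k).μ ω' ≠ 0 → (S.F k).Z ω ω' → R k ω ω' →
      Q.cellv c k ω = Q.cellv c k ω' := by
  filter_upwards [h] with k hk ω ω' a b z hr
  funext i
  show ⌊Q.v k ω i / S.dl c k⌋ = ⌊Q.v k ω' i / S.dl c k⌋
  rw [hk ω ω' a b z hr]

theorem fc_rcl {Q : S.VV M} {R : ∀ k, Setoid (S.F k).Ω} (h : KnS R Q.v) :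
    ∀ᶠ k in UF, (fc (rcl Q R k) : FL (S.F k)) = fc (R k) := by
  filter_upwards [cel_kn h 1] with k hk
  apply le_antisymm
  · exact fc_le fun ω ω' a b z hr => ⟨hr, hk ω ω' a b z hr⟩
  · exact fc_mono inf_le_left

theorem adfK_congr_R [Finite ι] (s : MSys S M E ι) {R R' : ∀ k, Setoid (S.F k).Ω}
    (h : ∀ᶠ k in UF, (fc (R k) : FL (S.F k)) = fc (R' k)) {c : ℝ} {x : ∀ k, FD (S.F k) (Mon M D)}
    (hx : (gaq s.Q D).AdfK (LC.kz (fun k => fc (R k))) (cndR s R c) x) :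
    (gaq s.Q D).AdfK (LC.kz (fun k => fc (R' k))) (cndR s R' c) x := by
  refine ⟨hx.1.mono_of fun i => ?_, ?_⟩
  · rcases i with _ | i
    · refine ⟨none, ?_⟩
      show Nul S (fun k => Pool.Agent.Helper31.EC.h (fc (R k)) (fc (R' k)))
      refine (Nul_zero S).congr' ?_
      filter_upwards [h] with k hk
      have h1 := h_self (fc (R' k) : FL (S.F k))
      rw [hk]
      show 0 / (S.F k).n = Pool.Agent.Helper31.EC.h (fc (R' k)) (fc (R' k)) / (S.F k).n
      rw [h1]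
    · exact ⟨some i, PLe.refl _⟩
  · have hl' : ∀ᶠ k in UF, (x k).l.leak (fc (R k)) = 0 := hx.2
    show ∀ᶠ k in UF, (x k).l.leak (fc (R' k)) = 0
    filter_upwards [h, hl'] with k a b
    rw [← a]
    exact b

theorem KOpt_congr [Finite ι] (s : MSys S M E ι) {R R' : ∀ k, Setoid (S.F k).Ω}
    (h : ∀ᶠ k in UF, (fc (R k) : FL (S.F k)) = fc (R' k)) {x : ∀ k, FD (S.F k) (Mon M D)} (hx : KOpt s R D x) :
    KOpt s R' D x := by
  refine ⟨adfK_congr_R s h hx.1, fun y hy => hx.2 y ?_⟩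
  exact adfK_congr_R s (by filter_upwards [h] with k hk using hk.symm) hy

theorem adfK_trn_lk {s : MSys S N E ι} {R V : ∀ k, Setoid (S.F k).Ω} (h : (∀ᶠ k in UF, R k ⊓ (S.F k).Z ≤ V k) ∧
    (Lab.ofZ V).DMf (cndR s R 0)) {b : ℝ} (h0 : 0 < b) (h1 : b ≤ 1) :
    (∀ᶠ k in UF, R k ⊓ ((S.chg S.tr b h0).F k).Z ≤ V k) ∧
      (Lab.ofZ (S := S.chg S.tr b h0) V).DMf (cndR (s.trn b h0 h1) R 0) := by
  refine ⟨?_, (Lab.ofZ_DMf (S := S.chg S.tr b h0) V).mpr fun o => ?_⟩
  · filter_upwards [h.1] with k hk ω ω' hw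
    exact hk ⟨hw.1, hw.2.2⟩
  · have h2 := (Lab.ofZ_DMf V).mp h.2 o
    apply Pool.Agent.Helper52.SL.nul_trn.mpr
    rcases o with _ | j
    · have e2 : (fun k => Pool.Agent.Helper31.EC.h (fc (F := (S.chg S.tr b h0).F k) (V k))
          (cndR (s.trn b h0 h1) R 0 none k)) = fun k => Pool.Agent.Helper31.EC.h (fc (V k)) (fc (R k)) :=
        funext fun k => h_chg_top (F := S.F k) b h0 (V k) (R k)
      rw [e2]
      exact h2
    · have e2 : (fun k => Pool.Agent.Helper31.EC.h (fc (F := (S.chg S.tr b h0).F k) (V k))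
          (cndR (s.trn b h0 h1) R 0 (some j) k)) =
          fun k => Pool.Agent.Helper31.EC.h (fc (V k)) ((s.lf j).win 0 k) := by
        funext k
        have e3 : ((s.lf j).Y.chg S.tr b h0).cellv 0 k = (s.lf j).Y.cellv 0 k := by
          rw [Pool.Agent.Helper52.SL.cellv_chg, mul_zero]
        have e4 : ((s.trn b h0 h1).lf j).win 0 k =
            fc (F := (S.chg S.tr b h0).F k) ((s.lf j).La k ⊓ Setoid.ker ((s.lf j).Y.cellv 0 k)) :=
          congrArg (fun f => fc (F := (S.chg S.tr b h0).F k) ((s.lf j).La k ⊓ Setoid.ker f)) e3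
        show Pool.Agent.Helper31.EC.h (fc (F := (S.chg S.tr b h0).F k) (V k)) (((s.trn b h0 h1).lf j).win 0 k) = _
        rw [e4]
        exact h_chg_top (F := S.F k) b h0 _ _
      rw [e2]
      exact h2

theorem LK_trn {s : MSys S N (lin g) ι} {R V : ∀ k, Setoid (S.F k).Ω} (h : LK s R V) {b : ℝ} (h0 : 0 < b)
    (h1 : b ≤ 1) : LK (S := S.chg S.tr b h0) (s.trn b h0 h1) R V := adfK_trn_lk h h0 h1

/-- unit directions at the space itself -/
theorem Ud_self {s : MSys S M E ι} {j : ι} (h : Ud v s j) {c c' : ℝ} (h0 : 0 ≤ c) (h1 : c ≤ c') (h2 : c' ≤ 1) (ε : ℝ)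
    (hε : 0 < ε) : ∀ᶠ k in UF, (v * (c' - c) - ε) * (S.F k).n ≤
      Pool.Agent.Helper31.EC.h (fc (Setoid.ker (s.Q.cellv c' k))) ((s.lf j).win c k) := by
  have hA := Pool.Agent.Helper91.EXA.pos_true S
  have h3 := h S (Pj.id S) (fun _ _ => True) hA c c' h0 h1 h2
  have hpb : ∀ k, (S.F k).pb (fun _ => True) = 1 := fun k => congrFun (Pool.Agent.Helper91.EXA.pr_true S) k
  rcases (h0.trans h1).eq_or_lt with hc | hc
  · have e1 : c = 0 := le_antisymm (by linarith) h0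
    refine Eventually.of_forall fun k => ?_
    rw [← hc, e1, sub_zero, mul_zero, zero_sub]
    have := (S.F k).pos
    have := h_nonneg (fc (Setoid.ker (s.Q.cellv 0 k)) : FL (S.F k)) ((s.lf j).win 0 k)
    nlinarith
  set f : ℕ → ℝ := fun k => Pool.Agent.Helper31.EC.h (fc (Setoid.ker ((s.im (Pj.id S) (fun _ _ => True) hA).Q.cellv c' k)))
      (((s.im (Pj.id S) (fun _ _ => True) hA).lf j).win c k) / ((Sp.im (Pj.id S) fun _ _ => True).F k).n with hf
  have hle : ∀ k, f k ≤ Pool.Agent.Helper31.EC.h (fc (Setoid.ker (s.Q.cellv c' k))) ((s.lf j).win c k) / (S.F k).n := by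
    intro k
    have h4 := imap_h_le ((Pj.id S).fp k) (fun _ => True) (fc (Setoid.ker (s.Q.cellv c' k))) ((s.lf j).win c k)
    have h5 : (S.F k).pb (fun _ => True) = 1 := hpb k
    rw [h5, one_mul] at h4
    exact div_le_div_of_nonneg_right h4 (S.F k).pos.le
  have hUB : UB f := by
    have h6 : UB fun k => Pool.Agent.Helper31.EC.H (fc (Setoid.ker (s.Q.cellv c' k)) : FL (S.F k)) / (S.F k).n :=
      rpI_Bd (s.Q.bdd c').toInf
    refine UB.sandwich (UB_const 0) h6 (Eventually.of_forall fun k =>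
      div_nonneg (h_nonneg _ _) ((Sp.im (Pj.id S) fun _ _ => True).F k).pos.le) (Eventually.of_forall fun k => ?_)
    refine (hle k).trans ?_
    exact div_le_div_of_nonneg_right (h_le_H _ _) (S.F k).pos.le
  have h11 : (v : ℝ) * (c' - c) - ε < ul f := by linarith
  filter_upwards [(ul_tendsto hUB).eventually (lt_mem_nhds h11)] with k hk
  have h12 := hk.le.trans (hle k)
  rwa [le_div_iff₀ (S.F k).pos] at h12

/-- the claim at the top level -/
theorem cla0 {s : MSys S N (lin g) (Fin r)} (hg : 1 ≤ g) (hr : 0 < r) {R V : ∀ k, Setoid (S.F k).Ω}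
    {K : ℝ} (hK : 0 ≤ K) (hlit : KnS R s.Q.v) (hN : NHE s.Q D (optW R fun i => wn s 0 i) K) (hL : LK s R V)
    {y : ∀ k, FD (S.F k) (Mon N D)} (hy : (gaq s.Q D).AdfK (LC.kz (fun k => fc (R k))) (cndR s R 0) y)
    (hyv : vol s.Q D y < N) {v : ℝ} (hH : ∀ ε : ℝ, 0 < ε → ∀ᶠ k in UF,
      Pool.Agent.Helper31.EC.h (ptF s.Q k) (fc (V k)) ≤ (v + ε) * (S.F k).n)
    {w : ℝ} (hw : ∀ j, ∀ ε : ℝ, 0 < ε → ∀ᶠ k in UF,
      (w - ε) * (S.F k).n ≤ Pool.Agent.Helper31.EC.h (ptF s.Q k) ((s.lf j).win 0 k)) : w < v := by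
  by_contra hcon
  push Not at hcon
  obtain ⟨Z, G0, z1, z2, z3⟩ := exists_zFD (gaq s.Q D) (cndR s R 0) R
  have hZd : (Lab.ofZ Z).DMf (cndR s R 0) := by
    have h1 := Gau.AdfK.dm (gaq s.Q D) z3.1
    rw [zFD_l] at h1
    exact h1
  have hZL : LK s R Z := ⟨z1, hZd⟩
  have hWL := hZL.inf hL
  have hx := opt_zFD (gaq s.Q D) (Eventually.of_forall z2) z3 (W := fun k => Z k ⊓ V k)
    (Eventually.of_forall fun k => inf_le_left) hWL.1 hWL.2
  have hR := fc_rcl hlit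
  have hx' : KOpt s (rcl s.Q R) D (fun k => zFD (Z k ⊓ V k) (G0 k)) :=
    KOpt_congr s (by filter_upwards [hR] with k hk using hk.symm) hx
  have hN' : NHE s.Q D (optW (rcl s.Q R) (fun j : Fin r => wn s 0 j)) K := by
    refine hN.ren (fun o => o) ?_
    filter_upwards [cel_kn hlit 1] with k hk o ω ω' a c z hr
    rcases o with _ | j
    · exact ⟨hr, hk ω ω' a c z hr⟩
    · exact hr
  have hED : 1 ≤ Pool.Agent.Helper84.MT.lin g D := by
    unfold Pool.Agent.Helper84.MT.lin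
    exact Nat.mul_pos hg (Nat.succ_pos D)
  have : Nonempty (Fin r) := ⟨⟨0, hr⟩⟩
  have hfin : (N : ℝ) ≤ vol s.Q D (fun k => zFD (Z k ⊓ V k) (G0 k)) := by
    refine claimK_vol s hED le_rfl one_pos (rcl s.Q R) (fun k => inf_le_right) (fun j : Fin r => j) hN' hK hx'
      fun j => ?_
    refine HLe_of_num (v := v) (fun ε hε => ?_) (fun ε hε => ?_)
    · filter_upwards [hH ε hε] with k hk
      have e1 : Pool.Agent.Helper31.EC.h ((zFD (Z k ⊓ V k) (G0 k)).l.p.map (ptF s.Q k))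
          (zFD (Z k ⊓ V k) (G0 k)).l.v =
          Pool.Agent.Helper31.EC.h (ptF s.Q k) (fc (Z k ⊓ V k)) := rfl
      rw [e1]
      exact (h_anti (fc_mono inf_le_right)).trans hk
    · filter_upwards [hw j ε hε] with k hk
      refine le_trans ?_ hk
      exact mul_le_mul_of_nonneg_right (by linarith) (S.F k).pos.le
  have hle := vol_optK_le hx hy
  linarith

/-- **THE CLAIM** -/
theorem cla (hV : ST_CUTV) {s : MSys S N (lin g) (Fin r)} (hg : 1 ≤ g) (hr : 0 < r) {R V : ∀ k, Setoid (S.F k).Ω}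
    {K : ℕ → ℝ} (hK : ∀ D, 0 ≤ K D) (hlit : KnS R s.Q.v)
    (hN : ∀ D, NHE s.Q D (optW R fun i => wn s 0 i) (K D)) (hL : LK s R V) {σ : Fin v → Fin N} (hv : v < N) {b : ℝ}
    (hb0 : 0 < b) (hb1 : b < 1) (hD : 1 ≤ D) {G : Fin N → ∀ k, (S.F k).Ω → Matrix (Mon (v + 1) D) (Mon (v + 1) D) ℝ}
    (hc : CutF V s.Q σ b D G) (hH : ∀ ε : ℝ, 0 < ε → ∀ᶠ k in UF,
      Pool.Agent.Helper31.EC.h (fc (Setoid.ker (s.Q.cellv b k))) (fc (V k)) ≤ (v * b + ε) * (S.F k).n)
    {w : ℕ} (hw : UDe w s) : w < v := by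
  obtain ⟨y, hy, hyv⟩ := hV S N g r v s R V σ b hb0 hb1.le D G hv hD hL hc
  have hLt : LK (S := S.chg S.tr b hb0) (s.trn b hb0 hb1.le) R V := LK_trn hL hb0 hb1.le
  have hlit' : KnS (S := S.chg S.tr b hb0) R (s.trn b hb0 hb1.le).Q.v := by
    filter_upwards [hlit] with k hk ω ω' a c z hr using hk ω ω' a c z.2 hr
  have hN' : NHE (S := S.chg S.tr b hb0) (s.trn b hb0 hb1.le).Q D
      (optW (S := S.chg S.tr b hb0) R (fun j : Fin r => wn (s.trn b hb0 hb1.le) 0 j)) (K D) := by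
    refine ((hN D).trn (hK D) hb0 hb1).ren (fun o => o) (Eventually.of_forall ?_)
    intro k o ω ω' a c z hr
    rcases o with _ | j
    · exact hr
    · have e2 : ((s.lf j).Y.chg S.tr b hb0).cellv 0 k = (s.lf j).Y.cellv 0 k := by
        rw [Pool.Agent.Helper52.SL.cellv_chg, mul_zero]
      have e3 : wn (s.trn b hb0 hb1.le) 0 j k = wn s 0 j k :=
        congrArg (fun f => (s.lf j).La k ⊓ Setoid.ker f) e2
      show wn (s.trn b hb0 hb1.le) 0 j k ω ω'
      rw [e3]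
      exact hr
  have hpt : ∀ k, ptF (s.trn b hb0 hb1.le).Q k = fc (F := (S.chg S.tr b hb0).F k) (Setoid.ker (s.Q.cellv b k)) := by
    intro k
    have e1 : (s.Q.chg S.tr b hb0).cellv 1 k = s.Q.cellv (b * 1) k := Pool.Agent.Helper52.SL.cellv_chg s.Q b hb0 1 k
    rw [mul_one] at e1
    exact congrArg (fun f => fc (F := (S.chg S.tr b hb0).F k) (Setoid.ker f)) e1
  have hfin := cla0 (S := S.chg S.tr b hb0) (s := s.trn b hb0 hb1.le) hg hr (hK D) hlit' hN' hLt hy hyv (v := (v : ℝ))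
    (w := (w : ℝ)) ?_ ?_
  · exact_mod_cast hfin
  · intro ε hε
    filter_upwards [hH (ε * b) (by positivity)] with k hk
    have e3 : Pool.Agent.Helper31.EC.h (fc (F := (S.chg S.tr b hb0).F k) (Setoid.ker (s.Q.cellv b k)))
        (fc (F := (S.chg S.tr b hb0).F k) (V k)) =
        Pool.Agent.Helper31.EC.h (fc (Setoid.ker (s.Q.cellv b k))) (fc (V k)) := h_chg_top (F := S.F k) b hb0 _ _
    have e4 : ((S.chg S.tr b hb0).F k).n = b * (S.F k).n := rfl
    rw [hpt k, e3, e4]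
    refine hk.trans (le_of_eq ?_)
    ring
  · intro j ε hε
    filter_upwards [Ud_self (hw j) le_rfl hb0.le hb1.le (ε * b) (by positivity)] with k hk
    have hn := (S.F k).pos
    have e3 : ((s.lf j).Y.chg S.tr b hb0).cellv 0 k = (s.lf j).Y.cellv 0 k := by
      rw [Pool.Agent.Helper52.SL.cellv_chg, mul_zero]
    have e4 : ((s.trn b hb0 hb1.le).lf j).win 0 k =
        fc (F := (S.chg S.tr b hb0).F k) ((s.lf j).La k ⊓ Setoid.ker ((s.lf j).Y.cellv 0 k)) :=
      congrArg (fun f => fc (F := (S.chg S.tr b hb0).F k) ((s.lf j).La k ⊓ Setoid.ker f)) e3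
    have e5 : Pool.Agent.Helper31.EC.h (fc (F := (S.chg S.tr b hb0).F k) (Setoid.ker (s.Q.cellv b k)))
        (fc (F := (S.chg S.tr b hb0).F k) ((s.lf j).La k ⊓ Setoid.ker ((s.lf j).Y.cellv 0 k))) =
        Pool.Agent.Helper31.EC.h (fc (Setoid.ker (s.Q.cellv b k))) ((s.lf j).win 0 k) :=
      h_chg_top (F := S.F k) b hb0 _ _
    have e6 : ((S.chg S.tr b hb0).F k).n = b * (S.F k).n := rfl
    rw [hpt k, e4, e5, e6]
    refine le_trans (le_of_eq ?_) hk
    ring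

end

end Pool.Agent.Helper87.NSL
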