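import Pool.Agent.Helper87.NSL.Costr
import Pool.Agent.Helper48.LIP.R2

/-! THEOREM COST for forms over an optimal form of a system of leaves: only the information of the additional label about
the point counts. -/

set_option autoImplicit false

namespace Pool.Agent.Helper87.NSL

open Finset Filter Topology Matrix Pool.Agent.Helper69.RK Pool.Agent.Helper31.EC Pool.Agent.Helper40.EL
open Pool.Agent.Helper84.MT Pool.Agent.Helper3.LF Pool.Agent.Helper59.LF Pool.Agent.Helper89.LX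
open Pool.Agent.Helper48.NS Pool.Agent.Helper48.LIP
open Pool.Agent.Helper95.LF (PdM)

noncomputable section

/-- the information which remains after resampling -/
theorem rs_info_pt {F : FSp} (l : FLab F) {T' : FSp} (r : FPj T' l.T) (hn : T'.n = l.T.n) (V' : Setoid T'.Ω)
    (q : FL F) : ((ovl l r hn V').rs (l.up 1 one_pos q)).info = I (fc V') (r.map (l.p.map q)) (r.map l.v) := by
  have e0 : l.up 1 one_pos q = (frb l.T l.V 1 one_pos).map (l.p.map q) := rfl
  rw [FLab.rs_info, ovl_info, e0, ovl_leak]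
  have h1 : I (fc V') (r.map (l.p.map q) ⊔ r.top) (r.map l.v) =
      I (fc V') (r.map (l.p.map q)) (r.map l.v) + I (fc V') r.top (r.map (l.p.map q) ⊔ r.map l.v) :=
    I_chain_right _ _ _ _
  rw [sup_eq_right.mpr (r.map_le_top _), ← r.map_sup] at h1
  linarith

variable {S : Sp} {M D : ℕ} {E : ℕ → ℕ} {ι : Type}

/-- the gauge is monotone -/
theorem gaq_mono (Q : S.VV M) (k : ℕ) (ω : (S.F k).Ω) (A B : Matrix (Mon M D) (Mon M D) ℝ) (c : ℝ)
    (h : ∀ v, qf A v ≤ c * qf B v) : (gaq Q D).φ k ω A ≤ c * (gaq Q D).φ k ω B := by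
  show phi (S.dl 1 k) A (Q.v k ω) ≤ c * phi (S.dl 1 k) B (Q.v k ω)
  rw [← phi_smul]
  apply phi_mono
  intro v
  rw [Pool.Agent.Helper95.LF.dv_smul]
  exact h v

/-- the fine cell of the point -/
def ptF (Q : S.VV M) : Part S := fun k => fc (Setoid.ker (Q.cellv 1 k))

/-- the COST property of a label with form: good coefficients over it cannot be small at the point unless the label knows
something about the space; no hypothesis on the leaks of the label -/
def CostP (s : MSys S M E ι) (D : ℕ) (c : ℝ) (x : ∀ k, FD (S.F k) (Mon M D)) : Prop :=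
  ∀ E₀ : ℝ, 0 ≤ E₀ → E₀ ≤ E D * (1 - c) → ∀ y : ∀ k, CL ((Ov x).F k) (Mon M D → ℝ),
    (∀ᶠ k in UF, (y k).Good (GdC x k)) → UB (fun k => (y k).l.info / ((Ov x).F k).n) →
    ul (fun k => (y k).E (fex (gaq s.Q D) x E₀ k)) ≤ E D * ul (fun k => (y k).l.info / ((Ov x).F k).n)

/-- ordinary labels: optimal forms have the cost property -/
theorem costP_of_opt [Finite ι] (s : MSys S M E ι) (hED : 1 ≤ E D) {c : ℝ} (h0 : 0 ≤ c) (h1 : c < 1)
    (R : ∀ k, Setoid (S.F k).Ω) (hR : ∀ k, R k ≤ Setoid.ker (s.Q.cellv 1 k)) {x : ∀ k, FD (S.F k) (Mon M D)}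
    (hx : (gaq s.Q D).Optf (cndR s R c) x) : CostP s D c x :=
  fun E₀ hE0 hE1 y hy hU => cost_R s hED h0 h1 R hR E₀ hE0 hE1 hx y hy hU

/-- (R'') over a form with the cost property, resampled: a form known to a label over `x`, bounded at the point, exceeds
the form `x.g` only at the cost of the information of the label about the point -/
theorem r2C (s : MSys S M E ι) {c : ℝ} {x : ∀ k, FD (S.F k) (Mon M D)} (hx : CostP s D c x)
    (hcpd : ∀ᶠ k in UF, ∀ ω, (x k).l.T.μ ω ≠ 0 → Cpd ((gaq s.Q D).cp k) ((x k).g ω)) (T' : ℕ → FSp) (r : ∀ k, FPj (T' k) (x k).l.T)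
    (hn : ∀ k, (T' k).n = (x k).l.T.n) (V' : ∀ k, Setoid (T' k).Ω)
    (g : ∀ k, (T' k).Ω → Matrix (Mon M D) (Mon M D) ℝ)
    (meas : ∀ k ω ω', (T' k).μ ω ≠ 0 → (T' k).μ ω' ≠ 0 → V' k ω ω' → (x k).l.V ((r k).π ω) ((r k).π ω') →
      (T' k).Z ω ω' → g k ω = g k ω')
    (hg : ∀ᶠ k in UF, ∀ ω, (T' k).μ ω ≠ 0 → (g k ω).IsSymm ∧ ∀ v, 0 ≤ qf (g k ω) v) (b e : ℝ) (he : 0 < e)
    (he1 : e ≤ E D * (1 - c))
    (hb : ∀ η : ℝ, 0 < η → ∀ᶠ k in UF, (T' k).pb (fun ω => ¬ (gaq s.Q D).φ k ((x k).l.p.π ((r k).π ω)) (g k ω) ≤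
      2 ^ ((2 * b + η) * (S.F k).n)) ≤ η)
    (hU : UB (fun k => I (fc (V' k)) ((r k).map ((x k).l.p.map (ptF s.Q k))) ((r k).map (x k).l.v) / (S.F k).n)) :
    e * ul (fun k => (T' k).pb (fun ω => ¬ ∀ v, qf (g k ω) v ≤
      2 ^ (2 * (e + b) * (S.F k).n) * qf ((x k).g ((r k).π ω)) v)) ≤
      E D * ul (fun k => I (fc (V' k)) ((r k).map ((x k).l.p.map (ptF s.Q k))) ((r k).map (x k).l.v) / (S.F k).n) := by
  classical
  -- the label with coefficient
  set lam : ℕ → ℝ := fun k => 2 ^ (2 * (e + b) * (S.F k).n) with hlam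
  have hlam0 : ∀ k, 0 < lam k := fun k => by positivity
  set cf : ∀ k, (T' k).Ω → (Mon M D → ℝ) := fun k ω => cof ((x k).g ((r k).π ω)) (g k ω) (lam k) with hcf
  set y : ∀ k, CL ((Ov x).F k) (Mon M D → ℝ) := fun k =>
    { l := ovl (x k).l (r k) (hn k) (V' k)
      c := cf k
      meas := fun ω ω' h h' hV hZ => by
        have a1 : (x k).l.V ((r k).π ω) ((r k).π ω') := hZ.1
        have a2 : (T' k).Z ω ω' := hZ.2
        have a3 := meas k ω ω' h h' hV a1 a2
        have a4 := ((x k).meas _ _ ((r k).supp ω h) ((r k).supp ω' h') a1 (((r k).hZ ω ω' h h').mp a2)).1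
        rw [hcf]
        simp only
        rw [a3, a4] } with hy
  have : Nonempty (Mon M D) := ⟨⟨fun _ => 0, by simp⟩⟩
  have hspec : ∀ᶠ k in UF, ∀ ω, (T' k).μ ω ≠ 0 → UnitC ((x k).g ((r k).π ω)) (cf k ω) ∧
      ((¬ ∀ v, qf (g k ω) v ≤ lam k * qf ((x k).g ((r k).π ω)) v) →
        ∀ v, lam k * (cf k ω ⬝ᵥ v) ^ 2 ≤ qf (g k ω) v) := by
    filter_upwards [hcpd, hg] with k hk hk2 ω hω
    have hc := hk _ ((r k).supp ω hω)
    exact cof_spec hc.1 (fun v hv => hc.pd hv) (hk2 ω hω).1 (hk2 ω hω).2 (hlam0 k)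
  have hgood : ∀ᶠ k in UF, (y k).Good (GdC x k) := by
    filter_upwards [hspec] with k hk ω hω
    exact (hk ω hω).1
  -- resampling at the point
  set y0 : ∀ k, CL ((Ov x).F k) (Mon M D → ℝ) := fun k =>
    (y k).rs (Lab.up (fun k => (x k).l) 1 one_pos (fun k => fc (Setoid.ker (s.Q.cellv 1 k))) k) with hy0
  have hgood0 : ∀ᶠ k in UF, (y0 k).Good (GdC x k) := by
    filter_upwards [hgood] with k hk
    exact (y k).rs_good _ (fun ω ω' c h1 h2 hZ h => GdC_inv x k ω ω' c h1 h2 hZ h) hk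
  have hinfo : ∀ k, (y0 k).l.info / ((Ov x).F k).n =
      I (fc (V' k)) ((r k).map ((x k).l.p.map (ptF s.Q k))) ((r k).map (x k).l.v) / (S.F k).n := by
    intro k
    rw [Ov_n]
    congr 1
    exact rs_info_pt (x k).l (r k) (hn k) (V' k) (ptF s.Q k)
  have e1 : (fun k => (y0 k).l.info / ((Ov x).F k).n) = fun k =>
      I (fc (V' k)) ((r k).map ((x k).l.p.map (ptF s.Q k))) ((r k).map (x k).l.v) / (S.F k).n := funext hinfo
  have hU' : UB (fun k => (y0 k).l.info / ((Ov x).F k).n) := by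
    rw [e1]
    exact hU
  have hcost := hx e he.le he1 y0 hgood0 hU'
  rw [e1] at hcost
  obtain ⟨ε, hε, hεs⟩ := step_ptR (D := D) s.Q (fun k => Setoid.ker (s.Q.cellv 1 k)) (fun _ => le_rfl) e x
  refine le_trans ?_ hcost
  set bad : ∀ k, (T' k).Ω → Prop := fun k ω => ¬ ∀ v, qf (g k ω) v ≤ lam k * qf ((x k).g ((r k).π ω)) v with hbad
  have hUb : UB (fun k => (T' k).pb (bad k)) :=
    UB_of_nonneg_le (C := 1) (Eventually.of_forall fun k => FSp.pb_nonneg _ _)
      (Eventually.of_forall fun k => FSp.pb_le_one _ _)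
  have hUE0 : UB (fun k => (y0 k).E (fex (gaq s.Q D) x e k)) := by
    apply UB_of_nonneg_le (C := e)
    · exact Eventually.of_forall fun k => (y0 k).E_nonneg _ (fun ω c => ex_nonneg (S.F k).pos he.le)
    · exact Eventually.of_forall fun k => (y0 k).E_le _ _ (fun ω c => ex_le (S.F k).pos)
  have hUE : UB (fun k => (y k).E (fex (gaq s.Q D) x e k)) := by
    apply UB_of_nonneg_le (C := e)
    · exact Eventually.of_forall fun k => (y k).E_nonneg _ (fun ω c => ex_nonneg (S.F k).pos he.le)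
    · exact Eventually.of_forall fun k => (y k).E_le _ _ (fun ω c => ex_le (S.F k).pos)
  have hEE : ul (fun k => (y k).E (fex (gaq s.Q D) x e k)) ≤ ul (fun k => (y0 k).E (fex (gaq s.Q D) x e k)) := by
    have t1 := ul_tendsto hUE
    have t2 := (ul_tendsto hUE0).add hε
    rw [add_zero] at t2
    apply le_of_tendsto_of_tendsto t1 t2
    filter_upwards [hεs] with k hk
    have := hk (y k)
    linarith
  refine le_trans ?_ hEE
  -- the inequality up to `η`
  have hmain : ∀ η : ℝ, 0 < η → η < 2 * e → (e - η / 2) * (ul (fun k => (T' k).pb (bad k)) - η) ≤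
      ul (fun k => (y k).E (fex (gaq s.Q D) x e k)) := by
    intro η hη hηe
    have hUb2 : UB (fun k => (e - η / 2) * ((T' k).pb (bad k) - η)) := (hUb.sub (UB_const η)).const_mul _
    have e2 : (e - η / 2) * (ul (fun k => (T' k).pb (bad k)) - η) = ul (fun k => (e - η / 2) * ((T' k).pb (bad k) - η)) := by
      rw [ul_const_mul _ (hUb.sub (UB_const η)), ul_sub hUb (UB_const η), ul_const]
    rw [e2]
    apply ul_mono hUb2 hUE
    filter_upwards [hspec, hb η hη] with k hk hbk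
    have hnk := (S.F k).pos
    set exc : (T' k).Ω → Prop := fun ω => ¬ (gaq s.Q D).φ k ((x k).l.p.π ((r k).π ω)) (g k ω) ≤
      2 ^ ((2 * b + η) * (S.F k).n) with hexc
    have h2 := CL.E_ge (y k) (fex (gaq s.Q D) x e k) (fun ω => ¬ (bad k ω ∧ ¬ exc ω)) (e - η / 2)
      (fun ω c => ex_nonneg hnk he.le) (by
        intro ω hω hB
        rw [not_not] at hB
        obtain ⟨hB1, hB2⟩ := hB
        rw [hexc] at hB2
        simp only [not_not] at hB2
        have h3 := (hk ω hω).2 hB1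
        show e - η / 2 ≤ ex (S.F k).n e ((gaq s.Q D).φ k ((x k).l.p.π ((r k).π ω)) (cc (cf k ω)))
        have h4 : (gaq s.Q D).φ k ((x k).l.p.π ((r k).π ω)) (cc (cf k ω)) ≤
            (lam k)⁻¹ * (gaq s.Q D).φ k ((x k).l.p.π ((r k).π ω)) (g k ω) := by
          apply gaq_mono s.Q k
          intro v
          rw [qf_cc]
          have h5 := mul_le_mul_of_nonneg_left (h3 v) (inv_pos.mpr (hlam0 k)).le
          rw [← mul_assoc, inv_mul_cancel₀ (hlam0 k).ne', one_mul] at h5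
          exact h5
        have h6 : (gaq s.Q D).φ k ((x k).l.p.π ((r k).π ω)) (cc (cf k ω)) ≤ 2 ^ (-(2 * (e - η / 2) * (S.F k).n)) := by
          refine h4.trans ((mul_le_mul_of_nonneg_left hB2 (inv_pos.mpr (hlam0 k)).le).trans (le_of_eq ?_))
          rw [hlam]
          simp only
          rw [← Real.rpow_neg (by norm_num), ← Real.rpow_add (by norm_num)]
          congr 1
          ring
        refine le_trans ?_ (ex_ge hnk h6)
        exact le_min le_rfl (by linarith))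
    refine le_trans ?_ h2
    apply mul_le_mul_of_nonneg_left _ (by linarith)
    have h7 := (T' k).pb_add_compl (fun ω => bad k ω ∧ ¬ exc ω)
    have h8 : (y k).l.T.pb (fun ω => ¬ (bad k ω ∧ ¬ exc ω)) = (T' k).pb (fun ω => ¬ (bad k ω ∧ ¬ exc ω)) := rfl
    rw [h8]
    have h9 : (T' k).pb (bad k) ≤ (T' k).pb (fun ω => (bad k ω ∧ ¬ exc ω) ∨ exc ω) := by
      apply FSp.pb_mono
      intro ω _ hω
      by_cases h : exc ω
      · exact Or.inr h
      · exact Or.inl ⟨hω, h⟩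
    have h10 := pb_or (T' k) (fun ω => bad k ω ∧ ¬ exc ω) exc
    linarith
  -- the limit `η → 0`
  have hlim : Tendsto (fun η : ℝ => (e - η / 2) * (ul (fun k => (T' k).pb (bad k)) - η)) (𝓝[>] 0)
      (𝓝 ((e - 0 / 2) * (ul (fun k => (T' k).pb (bad k)) - 0))) := by
    apply Tendsto.mono_left _ nhdsWithin_le_nhds
    apply Continuous.tendsto
    fun_prop
  rw [zero_div, sub_zero, sub_zero] at hlim
  apply le_of_tendsto hlim
  have h11 : ∀ᶠ η : ℝ in 𝓝[>] 0, η < 2 * e := by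
    apply mem_nhdsWithin_of_mem_nhds
    exact gt_mem_nhds (by linarith)
  filter_upwards [h11, self_mem_nhdsWithin] with η h12 h13
  exact hmain η h13 h12

/-- (R'') over an optimal form -/
theorem r2R [Finite ι] (s : MSys S M E ι) (hED : 1 ≤ E D) {c : ℝ} (h0 : 0 ≤ c) (h1 : c < 1)
    (R : ∀ k, Setoid (S.F k).Ω) (hR : ∀ k, R k ≤ Setoid.ker (s.Q.cellv 1 k)) {x : ∀ k, FD (S.F k) (Mon M D)}
    (hx : (gaq s.Q D).Optf (cndR s R c) x) (T' : ℕ → FSp) (r : ∀ k, FPj (T' k) (x k).l.T)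
    (hn : ∀ k, (T' k).n = (x k).l.T.n) (V' : ∀ k, Setoid (T' k).Ω)
    (g : ∀ k, (T' k).Ω → Matrix (Mon M D) (Mon M D) ℝ)
    (meas : ∀ k ω ω', (T' k).μ ω ≠ 0 → (T' k).μ ω' ≠ 0 → V' k ω ω' → (x k).l.V ((r k).π ω) ((r k).π ω') →
      (T' k).Z ω ω' → g k ω = g k ω')
    (hg : ∀ᶠ k in UF, ∀ ω, (T' k).μ ω ≠ 0 → (g k ω).IsSymm ∧ ∀ v, 0 ≤ qf (g k ω) v) (b e : ℝ) (he : 0 < e)
    (he1 : e ≤ E D * (1 - c))
    (hb : ∀ η : ℝ, 0 < η → ∀ᶠ k in UF, (T' k).pb (fun ω => ¬ (gaq s.Q D).φ k ((x k).l.p.π ((r k).π ω)) (g k ω) ≤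
      2 ^ ((2 * b + η) * (S.F k).n)) ≤ η)
    (hU : UB (fun k => I (fc (V' k)) ((r k).map ((x k).l.p.map (ptF s.Q k))) ((r k).map (x k).l.v) / (S.F k).n)) :
    e * ul (fun k => (T' k).pb (fun ω => ¬ ∀ v, qf (g k ω) v ≤
      2 ^ (2 * (e + b) * (S.F k).n) * qf ((x k).g ((r k).π ω)) v)) ≤
      E D * ul (fun k => I (fc (V' k)) ((r k).map ((x k).l.p.map (ptF s.Q k))) ((r k).map (x k).l.v) / (S.F k).n) := by
  refine r2C s (costP_of_opt s hED h0 h1 R hR hx) ?_ T' r hn V' g meas hg b e he he1 hb hU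
  filter_upwards [hx.1 1 one_pos] with k hk ω hω
  exact (hk.2.1 ω hω).1

end

end Pool.Agent.Helper87.NSL
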