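import Pool.Agent.Helper87.NSL.Aux1
import Pool.Agent.Helper81.HLF.Hlf
import Pool.Agent.Helper93.NSL.Cutv
import Pool.Agent.Helper69.UDV.Udv
import Pool.Agent.Helper80.SUB.Sim
import Pool.Agent.Helper30.NSL.StRow
import Pool.Agent.Helper38.PUR.Bad
import Pool.Agent.Helper38.PUR.Cut

/-! NSLs, assembly, part 2: data from auxiliary systems. -/

set_option autoImplicit false

namespace Pool.Agent.Helper87.NSL

open Finset Filter Topology Matrix Pool.Agent.Helper69.RK Pool.Agent.Helper31.EC Pool.Agent.Helper31.EC.Sp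
open Pool.Agent.Helper40.EL Pool.Agent.Helper84.MT Pool.Agent.Helper3.LF
open Pool.Agent.Helper89.LX Pool.Agent.Helper38.NSL
open Pool.Agent.Helper76.DIM (pck CutF VLeaf)
open Pool.Agent.Helper76.LG (VLeafX vtype')
open Pool.Agent.Helper36.AM (MCl STu)
open Pool.Agent.Helper81.CP2 (Rows HRw ini)
open Pool.Agent.Helper80.SUB (Sub SubCl)
open Pool.Agent.Helper38.PUR (Pr Rch Bad Rec LK prs pur st_bad st_cutf)
open Pool.Agent.Helper14.NHG (NHC)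

noncomputable section

variable {S T : Sp} {N D g r g' r' v : ℕ}

/-- DATA of a member: full coordinates, cuts, rows over every type -/
def VPd (TT : ∀ S : Sp, MSys S N (lin g) (Fin r) → (∀ k, Setoid (S.F k).Ω) → Prop) (v : ℕ) : Prop :=
  ∃ (S : Sp) (s : MSys S N (lin g) (Fin r)) (R V : ∀ k, Setoid (S.F k).Ω) (τ : Fin N → Fin N) (hv : v < N) (b : ℝ)
    (D : ℕ) (G : Fin N → ∀ k, (S.F k).Ω → Matrix (Mon (v + 1) D) (Mon (v + 1) D) ℝ), TT S s R ∧ 0 < b ∧ b < 1 ∧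
      1 ≤ D ∧ Function.Surjective τ ∧ (∀ i, Nul S (fun k => ((Lab.ofZ V) k).leak ((s.lf i).win 0 k))) ∧
      CutF V s.Q (ini τ hv.le) b D G ∧ ∀ i, HRw s.Q (s.lf i) τ v V

/-- AUXILIARY SYSTEMS of members, with `w` unit directions, transversal if `P` -/
def AuxP (TT : ∀ S : Sp, MSys S N (lin g) (Fin r) → (∀ k, Setoid (S.F k).Ω) → Prop) (Cl : MCl N) (w : ℕ) (P : Prop)
    (K : ℕ → ℝ) (S : Sp) (s' : MSys S N (lin g') (Fin r')) : Prop :=
  ∃ (S0 : Sp) (t0 : MSys S0 N (lin g) (Fin r)) (R0 : ∀ k, Setoid (S0.F k).Ω) (p : Pj S S0), TT S0 t0 R0 ∧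
    Sub t0 p s' ∧ Cl S g' r' s' ∧ UDe w s' ∧
      (P → ∀ D, NHE s'.Q D (optW (p.pb R0) (fun i => wn s' 0 i)) (K D))

variable {TT : ∀ S : Sp, MSys S N (lin g) (Fin r) → (∀ k, Setoid (S.F k).Ω) → Prop} {Cl : MCl N} {w : ℕ} {P : Prop}
  {K K' : ℕ → ℝ}

theorem AuxP.im (hT : TTc Cl v K K' TT) (hC : ImCl N Cl) {s' : MSys S N (lin g') (Fin r')}
    (h : AuxP TT Cl w P K S s') (q : Pj T S) (A : ∀ k, (T.F k).Ω → Prop) (hA : 0 < ul (T.pr A)) :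
    AuxP TT Cl w P K (Sp.im q A) (s'.im q A hA) := by
  obtain ⟨S0, t0, R0, p, h1, h2, h3, h4, h5⟩ := h
  refine ⟨Sp.im (q.comp p) A, t0.im (q.comp p) A hA, R0, Pool.Agent.Helper80.SUB.imj p q A,
    hT.im _ _ _ h1 _ _ _ _, h2.im q A hA, hC _ _ _ _ h3 _ _ _ _, h4.im q A hA, fun hP D => ?_⟩
  exact (h5 hP D).im q A hA

/-- the entropy of the trivial label -/
theorem KLb_triv {E : ℕ → ℕ} {ι : Type} (s : MSys S N E ι) (R : ∀ k, Setoid (S.F k).Ω) :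
    KLb s R (fun k => FLab.triv (S.F k)) where
  nul := fun i => by
    refine (Nul_zero S).of_le (Eventually.of_forall fun k => FLab.leak_nonneg _ _) (Eventually.of_forall fun k => ?_)
    rw [FLab.triv_leak]
  ex := Eventually.of_forall fun k => FLab.triv_leak _

/-- the entropy of the level `b` over the label of a cut -/
theorem hlf_of_cut {Q : S.VV N} {V : ∀ k, Setoid (S.F k).Ω} {σ : Fin v → Fin N} {b : ℝ} (hb : 0 < b) (hb1 : b < 1)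
    (hD : 1 ≤ D) {G : Fin N → ∀ k, (S.F k).Ω → Matrix (Mon (v + 1) D) (Mon (v + 1) D) ℝ} (x : CutF V Q σ b D G) :
    ∀ ε : ℝ, 0 < ε → ∀ᶠ k in UF,
      Pool.Agent.Helper31.EC.h (fc (Setoid.ker (Q.cellv b k))) (fc (V k)) ≤ (v * b + ε) * (S.F k).n := by
  obtain ⟨La, Y, n, c, β, A, f, y⟩ := vtype' hb hb1.le hD x
  exact Pool.Agent.Helper81.HLF.st_HLF S N v _ _ Q V La σ b hb Y n c β A f hb1.le y

theorem LK_of_cel {s : MSys S N (lin g) (Fin r)} {R V : ∀ k, Setoid (S.F k).Ω} (h : LK s (cel s.Q) V) :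
    LK s (rcl s.Q R) V := by
  have h1 : ∀ᶠ k in UF, rcl s.Q R k ⊓ (S.F k).Z ≤ V k := by
    filter_upwards [h.1] with k hk ω ω' hw
    exact hk ⟨hw.1.2, hw.2⟩
  refine ⟨h1, fun o => ?_⟩
  rcases o with _ | i
  · exact LC.kz_nul (Pool.Agent.Helper49.KL.kz_ofZ h1)
  · exact h.2 (some i)

theorem AuxP.lt (hT : TTc Cl v K K' TT) {s' : MSys S N (lin g') (Fin r')} (h : AuxP TT Cl w P K S s') :
    Pool.Agent.Helper31.EC.H (s'.Q.dg 1) < N := by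
  obtain ⟨S0, t0, R0, p, h1, h2, -⟩ := h
  have h3 := hT.lt _ _ _ (hT.pull _ _ _ h1 S p)
  have h4 : s'.Q = (t0.pull p).Q := h2.pt
  rw [h4]
  exact h3

theorem AuxP.bad (hT : TTc Cl v K K' TT) {s' : MSys S N (lin g') (Fin r')} (h : AuxP TT Cl w P K S s')
    (hgd : Gd s') : ∃ D, 1 ≤ D ∧ ∃ x : ∀ k, FD (S.F k) (Mon N D), KOpt s' (cel s'.Q) D x ∧ vol s'.Q D x < N := by
  have hlt := h.lt hT
  obtain ⟨D, hD, h6⟩ := hgd ((N - Pool.Agent.Helper31.EC.H (s'.Q.dg 1)) / 2) (by linarith)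
  obtain ⟨x, hx⟩ := (gaq s'.Q D).exists_optfK (LC.kz fun k => fc (cel s'.Q k)) (cndR s' (cel s'.Q) 0)
  refine ⟨D, hD, x, hx, ?_⟩
  have h7 := h6 x hx _ (KLb_triv s' _)
  have h8 := H_up1_le (fun k => FLab.triv (S.F k)) (s'.Q.dg 1)
  linarith

/-- NEW DATA from an auxiliary system -/
theorem vpx (hST : ∀ m, m < N → STu m) (hC : ImCl N Cl) (hG : ∀ (S : Sp) (g r : ℕ) (s : MSys S N (lin g) (Fin r)),
    1 ≤ g → 0 < r → Cl S g r s → UDe (v + 1) s → Gd s) (hT : TTc Cl v K K' TT) (hw : v + 1 ≤ w) (hg' : 1 ≤ g')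
    (hr' : 0 < r') {s' : MSys S N (lin g') (Fin r')} (h : AuxP TT Cl w P K S s') :
    ∃ u, VPd TT u ∧ v < u ∧ (P → w < u) := by
  have hgd : ∀ (S : Sp) (s : MSys S N (lin g') (Fin r')), AuxP TT Cl w P K S s → Gd s := by
    rintro S s ⟨S0, t0, R0, p, h1, h2, h3, h4, h5⟩
    exact hG S g' r' s hg' hr' h3 (h4.mono hw)
  have hbad : ∀ (S : Sp) (s : MSys S N (lin g') (Fin r')) (R : ∀ k, Setoid (S.F k).Ω),
      (AuxP TT Cl w P K S s ∧ R = cel s.Q) → ∃ D, 1 ≤ D ∧ ∃ x : ∀ k, FD (S.F k) (Mon N D),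
        (gaq s.Q D).OptfK (LC.kz fun k => fc (R k)) (cndR s R 0) x ∧ vol s.Q D x < N := by
    rintro S s _ ⟨h, rfl⟩
    exact h.bad hT (hgd S s h)
  obtain ⟨S2, s2, R2, ⟨h2, hR2⟩, -, u, σ, b, V, hu, hσ, hb, hb1, hLK, hfull, hrec⟩ := pur (ι := Fin r') (g := g')
    (C := fun _ _ _ => True) (fun _ => trivial) hST (fun S s R => AuxP TT Cl w P K S s ∧ R = cel s.Q)
    (fun S s R h T p _ A hA => ⟨h.1.im hT hC p A hA, h.2⟩)
    (fun S s R h k => by rw [h.2]; exact le_rfl) hbad S s' (cel s'.Q) ⟨h, rfl⟩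
  subst hR2
  have hGd := hgd S2 s2 h2
  obtain ⟨S0, t0, R0, p, tt, hsub, hcl, hud, hnh⟩ := h2
  have hQ : s2.Q = p.vv t0.Q := hsub.pt
  have http := hT.pull _ _ _ tt S2 p
  have hfull0 := hfull ⟨S2, s2, cel s2.Q⟩ (Rch.refl _) (Lab.ofZ V) (fun i => hLK.2 (some i))
    (Pool.Agent.Helper49.KL.kz_ofZ hLK.1)
  obtain ⟨D, G, hD, hcut⟩ := st_cutf S2 N g' r' u s2 (cel s2.Q) V σ b hu hσ hb hLK hfull0 hrec
  obtain ⟨τ, hτ, hini⟩ := exists_tau hσ hu.le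
  subst hini
  have hrow := Pool.Agent.Helper30.NSL.st_row S2 N g' r' u s2 V τ hu.le hg' hr' hST hGd hLK hτ
    (fun l hl => hfull ⟨S2, s2, cel s2.Q⟩ (Rch.refl _) l hl.nul hl.ex)
  have hleak : ∀ l : Lab S2, Nul S2 (fun k => (l k).leak (pcd s2.Q k)) →
      (∀ j, Nul S2 (fun k => (l k).leak ((s2.lf j).win 0 k))) →
      ∀ i, Nul S2 (fun k => (l k).leak (((t0.pull p).lf i).win 0 k)) := by
    intro l h1 h2 i
    have h3 := hsub.leak (B := pcd t0.Q) l (by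
      rw [← pcd_pull, ← hQ]
      exact h1) le_rfl zero_le_one h2 i
    rw [← win_pull] at h3
    exact h3
  have hkzV : Nul S2 (fun k => ((Lab.ofZ V) k).leak (pcd s2.Q k)) := LC.kz_nul (Pool.Agent.Helper49.KL.kz_ofZ hLK.1)
  have hlit : KnS (p.pb R0) (t0.pull p).Q.v := hT.lit _ _ _ http
  have hlit2 : KnS (p.pb R0) s2.Q.v := by
    rw [hQ]
    exact hlit
  have hLKt : LK (t0.pull p) (rcl (t0.pull p).Q (p.pb R0)) V := by
    have h1 : ∀ᶠ k in UF, rcl (t0.pull p).Q (p.pb R0) k ⊓ (S2.F k).Z ≤ V k := by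
      have h3 := hLK.1
      rw [hQ] at h3
      filter_upwards [h3] with k hk ω ω' hw
      exact hk ⟨hw.1.2, hw.2⟩
    refine ⟨h1, fun o => ?_⟩
    rcases o with _ | i
    · exact LC.kz_nul (Pool.Agent.Helper49.KL.kz_ofZ h1)
    · exact hleak (Lab.ofZ V) hkzV (fun j => hLK.2 (some j)) i
  have hcut' : CutF V (t0.pull p).Q (ini τ hu.le) b D G := by
    rw [hQ] at hcut
    exact hcut
  refine ⟨u, ⟨S2, t0.pull p, p.pb R0, V, τ, hu, b, D, G, http, hb, hb1, hD, hτ,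
    fun i => hleak (Lab.ofZ V) hkzV (fun j => hLK.2 (some j)) i, hcut', fun i ε hε => ?_⟩, ?_, fun hP => ?_⟩
  · obtain ⟨W, D', A', a', w1, w2, w3⟩ := hrow ε hε
    have h4 : Nul S2 (fun k => (W k).leak (pcd s2.Q k)) := LC.kz_nul w2.ex
    refine ⟨W, D', A', a', w1, hleak W h4 w2.nul i, ?_, ?_⟩
    · rw [hQ] at h4
      exact h4
    · rw [hQ] at w3
      exact w3
  · exact cla Pool.Agent.Helper93.NSL.st_cutv hT.g1 hT.r0 hT.K0 (kn_rcl hlit)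
      (fun D => nhe_rcl hlit (nhe0 (hT.nh _ _ _ http D))) hLKt hu hb hb1 hD hcut' (hlf_of_cut hb hb1 hD hcut')
      (hT.ud _ _ _ http)
  · exact cla Pool.Agent.Helper93.NSL.st_cutv hg' hr' hT.K0 (kn_rcl hlit2)
      (fun D => nhe_rcl hlit2 (hnh hP D)) (LK_of_cel hLK) hu hb hb1 hD hcut (hlf_of_cut hb hb1 hD hcut) hud

end

end Pool.Agent.Helper87.NSL
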