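import Pool.Agent.Helper87.NSL.Cpt
import Pool.Agent.Helper14.NHG.Nhb
import Pool.Agent.Helper76.LG.Vtx
import Pool.Agent.Helper66.MT.Spd

/-! TRANSVERSALITY OF THE LEAVES over the copies: the windows `0` of the leaves are functions of the copy, of the window `c`
of the type and of a bounded index, for every `c > 0`. -/

set_option autoImplicit false

namespace Pool.Agent.Helper87.NSL

open Finset Filter Topology Matrix Pool.Agent.Helper69.RK Pool.Agent.Helper31.EC Pool.Agent.Helper31.EC.Sp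
open Pool.Agent.Helper40.EL Pool.Agent.Helper84.MT Pool.Agent.Helper3.LF Pool.Agent.Helper38.NSL
open Pool.Agent.Helper14.NHG (par floor_eq_of_par' osc_of_lip nhb)
open Pool.Agent.Helper76.LG (VLeafX)

noncomputable section

variable {S W : Sp} {N v g L D : ℕ} {E : ℕ → ℕ} {κ : Type}

/-- TRANSVERSALITY OF THE LEAVES -/
theorem nhe_leaves [Finite κ] (s : MSys S N E κ) (p : Pj W S) (R : ∀ k, Setoid (S.F k).Ω) {b : ℝ} (hb : 0 < b)
    (hb1 : b < 1) (V La : κ → ∀ k, Setoid (W.F k).Ω) (σ : κ → Fin v → Fin N) (Y : κ → W.VV v) (n : κ → ℕ → ℝ)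
    (c : κ → ∀ k, (W.F k).Ω → Fin v → ℤ) (β : κ → ∀ k, (W.F k).Ω → Fin L) (A : κ → ∀ k, (W.F k).Ω → Prop)
    (f : κ → Leaf (W.chg W.tr b hb) ((p.vv s.Q).chg W.tr b hb) (lin g)) {K K' : ℝ} (hK : 0 ≤ K)
    (h : ∀ c : ℝ, 0 < c → c ≤ 1 → NHEt (S := W) (p.vv s.Q) D
      (optW (p.pb R) (fun i k => V i k ⊓ p.pb (wn s c i) k)) K (K' * c))
    (x : ∀ i, VLeafX (V i) (p.vv s.Q) (σ i) b hb g L (La i) (Y i) (n i) (c i) (β i) (A i) (f i)) :
    NHE (S := W.chg W.tr b hb) ((p.vv s.Q).chg W.tr b hb) D (optW (S := W.chg W.tr b hb) (p.pb R)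
      (fun i => wn (⟨(p.vv s.Q).chg W.tr b hb, f⟩ : MSys (W.chg W.tr b hb) N (lin g) κ) 0 i)) K := by
  classical
  have hn0 := fun i => (x i).subN
  intro e γ pr he hγ hp
  refine nhb (S := W.chg W.tr b hb) (Q := (p.vv s.Q).chg W.tr b hb) (K := K) (K' := K' / b) (g0 := 0) (p.pb R)
    (fun i => wn (⟨(p.vv s.Q).chg W.tr b hb, f⟩ : MSys (W.chg W.tr b hb) N (lin g) κ) 0 i)
    (fun c i k => V i k ⊓ p.pb (wn s c i) k) ?_ ?_ e γ pr he (by linarith) hp
  · intro c e γ pr hc hc1 he hγ hp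
    have h1 := (h c hc hc1).trn hK hb hb1 (g₁ := K' * c / b) (by
      rw [div_mul_cancel₀ _ hb.ne'])
    refine h1 e γ pr he ?_ hp
    have e1 : K' / b * c = K' * c / b := by ring
    linarith
  · intro d hd hd1
    obtain ⟨φ⟩ : Nonempty ((Fin L × (Fin v → Bool) × (Fin v → Bool)) ≃
        Fin (Fintype.card (Fin L × (Fin v → Bool) × (Fin v → Bool)))) := ⟨Fintype.equivFin _⟩
    have hT : Sp.Typ (S := W) (fun k ω => ∀ i, A i k ω) := Pool.Agent.Helper66.MT.typ_all fun i => (x i).tA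
    refine ⟨fun k ω => ∀ i, A i k ω, _, fun i k ω => φ (β i k ω,
      fun j => par ⌊n i k * (p.vv s.Q).v k ω (σ i j)⌋, fun j => par ⌊(Y i).v k ω j⌋), hT, ?_⟩
    have h1 : ∀ᶠ k in UF, ∀ i, ∀ ω ω', (W.F k).μ ω ≠ 0 → (W.F k).μ ω' ≠ 0 → (W.F k).Z ω ω' →
        wn (s.pull p) d i k ω ω' → ∀ l : Fin v, |n i k * (p.vv s.Q).v k ω (σ i l) -
          n i k * (p.vv s.Q).v k ω' (σ i l)| < 1 := by
      rw [eventually_all]
      intro i
      refine osc_of_lip (s.pull p) i (fun k ω l => n i k * (p.vv s.Q).v k ω (σ i l)) (hn0 i) ?_ d hd hd1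
      filter_upwards [(hn0 i).1] with k hk ω ω' _ _ _ δ hδ l
      rw [← mul_sub, abs_mul, abs_of_nonneg hk]
      exact mul_le_mul_of_nonneg_left (hδ (σ i l)) hk
    have h3 : ∀ᶠ k in UF, ∀ i ω j, c i k ω j = ⌊n i k * (p.vv s.Q).v k ω (σ i j)⌋ := by
      rw [eventually_all]
      intro i
      filter_upwards [(x i).fl] with k hk ω j using hk ω j
    filter_upwards [h1, h3] with k a1 a3
    have key : ∀ i (ω ω' : (W.F k).Ω), (W.F k).μ ω ≠ 0 → (W.F k).μ ω' ≠ 0 → (∀ i, A i k ω) → (∀ i, A i k ω') →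
        (W.F k).Z ω ω' → (V i k ⊓ p.pb (wn s d i) k) ω ω' →
        φ (β i k ω, fun j => par ⌊n i k * (p.vv s.Q).v k ω (σ i j)⌋, fun j => par ⌊(Y i).v k ω j⌋) =
          φ (β i k ω', fun j => par ⌊n i k * (p.vv s.Q).v k ω' (σ i j)⌋, fun j => par ⌊(Y i).v k ω' j⌋) →
        La i k ω ω' ∧ ∀ j, ⌊(Y i).v k ω j⌋ = ⌊(Y i).v k ω' j⌋ := by
      intro i ω ω' hω hω' hA hA' hZ hW hφ
      obtain ⟨hV, hwn⟩ := hW
      have h4 := φ.injective hφ
      have e1 : β i k ω = β i k ω' := congrArg Prod.fst h4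
      have e2 : (fun j => par ⌊n i k * (p.vv s.Q).v k ω (σ i j)⌋) =
          fun j => par ⌊n i k * (p.vv s.Q).v k ω' (σ i j)⌋ := congrArg (fun z => z.2.1) h4
      have e3 : (fun j => par ⌊(Y i).v k ω j⌋) = fun j => par ⌊(Y i).v k ω' j⌋ := congrArg (fun z => z.2.2) h4
      have hwn' : wn (s.pull p) d i k ω ω' := by
        refine ⟨hwn.1, ?_⟩
        show ((p.vv (s.lf i).Y).cellv d k) ω = ((p.vv (s.lf i).Y).cellv d k) ω'
        rw [vv_cellv]
        exact hwn.2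
      have h5 := a1 i ω ω' hω hω' hZ hwn'
      have hc : c i k ω = c i k ω' := by
        funext j
        rw [a3, a3]
        exact floor_eq_of_par' (h5 j) (congrFun e2 j)
      refine ⟨(x i).idx k ω ω' (hA i) (hA' i) hV hc e1, fun j => ?_⟩
      refine floor_eq_of_par' ?_ (congrFun e3 j)
      have e5 : ∀ ω j, (Y i).v k ω j = n i k * (p.vv s.Q).v k ω (σ i j) - c i k ω j := (x i).eY k
      rw [e5, e5, hc]
      have e6 : n i k * (p.vv s.Q).v k ω (σ i j) - c i k ω' j - (n i k * (p.vv s.Q).v k ω' (σ i j) - c i k ω' j) =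
          n i k * (p.vv s.Q).v k ω (σ i j) - n i k * (p.vv s.Q).v k ω' (σ i j) := by ring
      rw [e6]
      exact h5 j
    intro i ω ω' hω hω' hA hA' hZ hW hφ
    obtain ⟨hLa, hY⟩ := key i ω ω' hω hω' hA hA' hZ.2 hW hφ
    refine ⟨?_, ?_⟩
    · show (f i).La k ω ω'
      rw [(x i).eLa]
      exact hLa
    · have he' := (x i).e
      have e7 : ∀ (ω : ((W.chg W.tr b hb).F k).Ω) (a : Fin (f i).e), (f i).Y.cellv 0 k ω a =
          ⌊(Y i).v k ω (Fin.cast he' a)⌋ := by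
        intro ω a
        show ⌊(f i).Y.v k ω a / (W.chg W.tr b hb).dl 0 k⌋ = _
        rw [(W.chg W.tr b hb).dl_zero, div_one, ← (x i).par k ω (Fin.cast he' a)]
        rfl
      show (f i).Y.cellv 0 k ω = (f i).Y.cellv 0 k ω'
      funext a
      exact (e7 ω a).trans ((hY (Fin.cast he' a)).trans (e7 ω' a).symm)

end

end Pool.Agent.Helper87.NSL
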