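import Pool.Agent.Helper87.NSL.Cla
import Pool.Agent.Helper87.NSL.Lfn

/-! NSLs, assembly, part 1: closures. -/

set_option autoImplicit false

namespace Pool.Agent.Helper87.NSL

open Finset Filter Topology Matrix Pool.Agent.Helper69.RK Pool.Agent.Helper31.EC Pool.Agent.Helper31.EC.Sp
open Pool.Agent.Helper40.EL Pool.Agent.Helper84.MT Pool.Agent.Helper3.LF
open Pool.Agent.Helper89.LX Pool.Agent.Helper38.NSL
open Pool.Agent.Helper76.DIM (pck CutF VLeaf)
open Pool.Agent.Helper76.LG (VLeafX)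
open Pool.Agent.Helper36.AM (MCl STu)
open Pool.Agent.Helper81.CP2 (Rows HRw ini)
open Pool.Agent.Helper80.SUB (Sub SubCl)
open Pool.Agent.Helper38.PUR (LK)
open Pool.Agent.Helper14.NHG (NHC nhe_grid wn_of_wn pcell hasE_idx)

noncomputable section

variable {S T : Sp} {M N D g r v : ℕ} {E : ℕ → ℕ} {ι κ : Type}

theorem Ud.im {s : MSys S M E ι} {j : ι} (h : Ud v s j) (p : Pj T S) (A : ∀ k, (T.F k).Ω → Prop)
    (hA : 0 < ul (T.pr A)) : Ud v (s.im p A hA) j := by
  intro T' p' A' hA' c c' h0 h1 h2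
  obtain ⟨W, q, B, hB, e⟩ := Pool.Agent.Helper81.CPY.im_im (E := E) (M := M) (ι := ι) p A hA p' A' hA'
  have h3 := h W q B hB c c' h0 h1 h2
  have e1 := e s
  let F : (Σ S : Sp, MSys S M E ι) → Prop := fun x => (v : ℝ) * (c' - c) ≤
    ul (fun k => Pool.Agent.Helper31.EC.h (fc (Setoid.ker (x.2.Q.cellv c' k))) ((x.2.lf j).win c k) / (x.1.F k).n)
  have h4 : F ⟨_, s.im q B hB⟩ := h3
  rw [← e1] at h4
  exact h4

theorem UDe.im {s : MSys S M E ι} (h : UDe v s) (p : Pj T S) (A : ∀ k, (T.F k).Ω → Prop)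
    (hA : 0 < ul (T.pr A)) : UDe v (s.im p A hA) := fun j => (h j).im p A hA

theorem UDe.mono {s : MSys S M E ι} {w : ℕ} (h : UDe w s) (hv : v ≤ w) : UDe v s := by
  intro j T p A hA c c' h0 h1 h2
  refine le_trans ?_ (h j T p A hA c c' h0 h1 h2)
  have h3 : (v : ℝ) ≤ w := by exact_mod_cast hv
  exact mul_le_mul_of_nonneg_right h3 (by linarith)

/-- transversality at the window `0` -/
theorem nhe0 [Finite ι] {s : MSys S M E ι} {R : ∀ k, Setoid (S.F k).Ω} {K K' : ℝ}
    (h : NHC s D R (fun i => i) K K') : NHE s.Q D (optW R fun i => wn s 0 i) K := by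
  have h1 := nhe_grid s R (fun i : ι => i) h (m := 0) (fun _ _ _ a => a.elim0)
    (fun c _ _ j => Eventually.of_forall fun k ω ω' _ _ _ _ l => l.elim0)
  refine h1.ren (fun o => o) (Eventually.of_forall fun k o ω ω' _ _ _ hw => ?_)
  rcases o with _ | j
  · exact hw
  · exact hw.1

/-- transversality for the windows `c` joined with the windows `0` -/
theorem nhc_pair [Finite ι] {s : MSys S M E ι} {R : ∀ k, Setoid (S.F k).Ω} {K K' : ℝ}
    (h : NHC s D R (fun i => i) K K') {c : ℝ} (hc : 0 < c) (hc1 : c ≤ 1) :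
    NHEt s.Q D (optW R fun i k => wn s c i k ⊓ wn s 0 i k) K (K' * c) := by
  classical
  intro e γ p he hγ hp
  have _ : Fintype ι := Fintype.ofFinite ι
  have hcard : (0 : ℝ) < (Fintype.card (Fin (E 0) → Bool) : ℝ) ^ Fintype.card (Option ι) := by
    have : 0 < Fintype.card (Fin (E 0) → Bool) := Fintype.card_pos
    positivity
  filter_upwards [h c e γ (p / (Fintype.card (Fin (E 0) → Bool) : ℝ) ^ Fintype.card (Option ι)) hc hc1 he hγ
    (div_pos hp hcard)] with k a hE
  apply a
  refine hasE_idx (B := Fin (E 0) → Bool) (W := fun i => optW R (fun i k => wn s c i k ⊓ wn s 0 i k) i k)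
    (W' := fun i => optW R (fun j => wn s c j) i k) (fun i ω => match i with
    | none => fun _ => true
    | some j => pcell s 0 j k ω) (fun i ω ω' h1 h2 h3 h4 h5 => ?_) hE
  cases i with
  | none => exact h4
  | some j => exact ⟨h4, wn_of_wn s hc.le j k ω ω' h4 h5⟩

/-- the resolution with the cells of the point -/
theorem nhe_rcl {s : MSys S M E ι} {R : ∀ k, Setoid (S.F k).Ω} (hlit : KnS R s.Q.v) {K : ℝ}
    {W : ι → ∀ k, Setoid (S.F k).Ω} (h : NHE s.Q D (optW R W) K) : NHE s.Q D (optW (rcl s.Q R) W) K := by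
  refine h.ren (fun o => o) ?_
  filter_upwards [cel_kn hlit 1] with k hk o ω ω' a c z hr
  rcases o with _ | j
  · exact ⟨hr, hk ω ω' a c z hr⟩
  · exact hr

theorem kn_rcl {Q : S.VV M} {R : ∀ k, Setoid (S.F k).Ω} (h : KnS R Q.v) : KnS (rcl Q R) Q.v := by
  filter_upwards [h] with k hk ω ω' a c z hr using hk ω ω' a c z hr.1

/-- every injective choice of coordinates is the beginning of a surjective one -/
theorem exists_tau {σ : Fin v → Fin N} (hσ : Function.Injective σ) (hv : v ≤ N) :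
    ∃ τ : Fin N → Fin N, Function.Surjective τ ∧ ini τ hv = σ := by
  classical
  obtain ⟨e, he⟩ := Set.MapsTo.exists_equiv_extend_of_card_eq (α := Fin N) (β := Fin N) (t := Finset.univ)
    (by rw [Finset.card_univ]) (s := {x : Fin N | x.1 < v}) (f := fun x => if h : x.1 < v then σ ⟨x.1, h⟩ else x)
    (fun x _ => Finset.coe_univ (α := Fin N) ▸ Set.mem_univ _) (by
      intro x hx y hy hxy
      have hx' : x.1 < v := hx
      have hy' : y.1 < v := hy
      have h1 : (if h : x.1 < v then σ ⟨x.1, h⟩ else x) = if h : y.1 < v then σ ⟨y.1, h⟩ else y := hxy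
      rw [dif_pos hx', dif_pos hy'] at h1
      have h2 := hσ h1
      have h3 : x.1 = y.1 := congrArg (fun a : Fin v => a.1) h2
      exact Fin.ext h3)
  refine ⟨fun x => (e x : Fin N), fun y => ?_, funext fun i => ?_⟩
  · obtain ⟨x, hx⟩ := e.surjective ⟨y, Finset.mem_univ y⟩
    exact ⟨x, congrArg Subtype.val hx⟩
  · have h1 := he (Fin.castLE hv i) (by
      show (Fin.castLE hv i).1 < v
      exact i.2)
    show ((e (Fin.castLE hv i)) : Fin N) = σ i
    rw [h1]
    have h2 : (Fin.castLE hv i).1 < v := i.2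
    rw [dif_pos h2]
    rfl

end

end Pool.Agent.Helper87.NSL
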