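import Pool.Agent.Helper87.NSL.Aux3

/-! **NSLs** (pure version) -/

set_option autoImplicit false

namespace Pool.Agent.Helper87.NSL

open Finset Filter Topology Matrix Pool.Agent.Helper69.RK Pool.Agent.Helper31.EC Pool.Agent.Helper31.EC.Sp
open Pool.Agent.Helper40.EL Pool.Agent.Helper84.MT Pool.Agent.Helper3.LF
open Pool.Agent.Helper89.LX Pool.Agent.Helper38.NSL
open Pool.Agent.Helper76.DIM (pck CutF VLeaf)
open Pool.Agent.Helper76.LG (VLeafX vtype')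
open Pool.Agent.Helper85.OA (cA cA_ge)
open Pool.Agent.Helper36.AM (MCl STu)
open Pool.Agent.Helper81.CP2 (Rows HRw ini cLb cLb_leak' joint_indep cutF_joint)
open Pool.Agent.Helper80.SUB (Sub SubCl)
open Pool.Agent.Helper69.LAB (sub_trn sub_trn_one)
open Pool.Agent.Helper38.PUR (Pr Rch Bad Rec LK prs pur st_bad st_cutf)
open Pool.Agent.Helper14.NHG (NHC)
open Pool.Agent.Helper81.CPY (pjb)

noncomputable section

variable {S T : Sp} {N D g r g' r' v : ℕ}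
  {TT : ∀ S : Sp, MSys S N (lin g) (Fin r) → (∀ k, Setoid (S.F k).Ω) → Prop} {Cl : MCl N} {w : ℕ} {P : Prop}
  {K K' : ℕ → ℝ}

/-- THE START -/
theorem vstart (hST : ∀ m, m < N → STu m) (hC : ImCl N Cl) (hS : SubCl Cl) (hG : ∀ (S : Sp) (g r : ℕ)
    (s : MSys S N (lin g) (Fin r)), 1 ≤ g → 0 < r → Cl S g r s → UDe (v + 1) s → Gd s) (hT : TTc Cl v K K' TT)
    {s : MSys S N (lin g) (Fin r)} {R : ∀ k, Setoid (S.F k).Ω} (tt : TT S s R) (hD : 1 ≤ D)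
    {x : ∀ k, FD (S.F k) (Mon N D)} (hx : KOpt s R D x) (hv : vol s.Q D x < N) : ∃ u, VPd TT u ∧ v < u := by
  have hlit := hT.lit _ _ _ tt
  have hx' : KOpt s (rcl s.Q R) D x :=
    KOpt_congr s (by filter_upwards [fc_rcl hlit] with k hk using hk.symm) hx
  obtain ⟨A, hA, hbad⟩ := st_bad S N g r s (rcl s.Q R) D x hT.g1 hD (fun k => inf_le_right) hx' hv
  obtain ⟨S1, s1, R1, ⟨⟨R0, tt1, hR1⟩, -⟩, -, u, σ, b, V, hu, hσ, hb, hb1, hLK, hfull, hrec⟩ := pur (ι := Fin r)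
    (C := fun _ _ _ => True) (fun _ => trivial) hST (fun S' s' R' => (∃ R0, TT S' s' R0 ∧ R' = rcl s'.Q R0) ∧
      Rch (fun _ _ _ => True) (Pr.im ⟨S, s, rcl s.Q R⟩ A hA) ⟨S', s', R'⟩)
    (fun S' s' R' h T p _ B hB => ⟨h.1.imp fun R0 h0 => ⟨hT.im _ _ _ h0.1 T p B hB, h0.2⟩,
      Rch.im h.2 p trivial B hB⟩)
    (fun S' s' R' h k => by
      obtain ⟨⟨R0, _, h1⟩, -⟩ := h
      rw [h1]
      exact inf_le_right)
    (fun S' s' R' h => hbad ⟨S', s', R'⟩ h.2) (Sp.im (Pj.id S) A) (s.im (Pj.id S) A hA) (rcl (S := S) s.Q R)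
    ⟨⟨R, hT.im _ _ _ tt _ _ _ _, rfl⟩, Rch.refl _⟩
  subst hR1
  have hlit1 := hT.lit _ _ _ tt1
  have hfull0 := hfull ⟨S1, s1, rcl s1.Q R0⟩ (Rch.refl _) (Lab.ofZ V) (fun i => hLK.2 (some i))
    (Pool.Agent.Helper49.KL.kz_ofZ hLK.1)
  obtain ⟨D1, G, hD1, hcut⟩ := st_cutf S1 N g r u s1 (rcl s1.Q R0) V σ b hu hσ hb hLK hfull0 hrec
  have hvu : v < u := cla Pool.Agent.Helper93.NSL.st_cutv hT.g1 hT.r0 hT.K0 (kn_rcl hlit1)
    (fun D => nhe_rcl hlit1 (nhe0 (hT.nh _ _ _ tt1 D))) hLK hu hb hb1 hD1 hcut (hlf_of_cut hb hb1 hD1 hcut)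
    (hT.ud _ _ _ tt1)
  obtain ⟨La, Y, n, c, β, A', f, y⟩ := vtype' hb hb1.le hD1 hcut
  have hsub := sub_trn_one s1 hb hb1.le y.toVLeaf fun j => (Lab.ofZ_DMf V).mp hLK.2 (some j)
  have httr := hT.trn _ _ _ tt1 b hb hb1.le
  have haux : AuxP TT Cl u False K (S1.chg S1.tr b hb)
      (⟨s1.Q.chg S1.tr b hb, fun _ => f⟩ : MSys (S1.chg S1.tr b hb) N (lin (1 * cA N (N + N) D1)) (Fin 1)) :=
    ⟨S1.chg S1.tr b hb, s1.trn b hb hb1.le, R0, pjb (Pj.id S1) S1.tr b hb, httr, hsub,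
      hS _ _ _ _ (hT.cl _ _ _ httr) _ _ _ _ _ hsub,
      Pool.Agent.Helper69.UDV.st_UDV S1 N u _ _ 1 D1 s1.Q (fun _ => V) (fun _ => La) σ b hb (fun _ => G) (fun _ => Y)
        (fun _ => n) (fun _ => c) (fun _ => β) (fun _ => A') (fun _ => f) hb1.le (fun _ => hcut) (fun _ => y),
      fun h => h.elim⟩
  have hg' : 1 ≤ 1 * cA N (N + N) D1 := by
    rw [one_mul]
    exact cA_ge (N + N) D1 (by omega)
  obtain ⟨u', h1, h2, -⟩ := vpx hST hC hG hT hvu hg' one_pos haux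
  exact ⟨u', h1, h2⟩

/-- **NSLs** -/
theorem nsls (N : ℕ) : NSLs N := by
  intro Cl v g r K K' TT hST hC hS hG hT S s R tt D hD x hx
  by_contra hcon
  push Not at hcon
  obtain ⟨u₀, h0, h1⟩ := vstart hST hC hS hG hT tt hD hx hcon
  have key : ∀ n : ℕ, ∃ u, VPd TT u ∧ v < u ∧ n ≤ u := by
    intro n
    induction n with
    | zero => exact ⟨u₀, h0, h1, Nat.zero_le _⟩
    | succ n ih =>
      obtain ⟨u, a, b, c⟩ := ih
      obtain ⟨u', a', b', c'⟩ := vstep hST hC hS hG hT b a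
      exact ⟨u', a', b', by omega⟩
  obtain ⟨u, ⟨S', s', R', V, τ, hu, -⟩, -, h3⟩ := key N
  omega

end

end Pool.Agent.Helper87.NSL
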