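import Pool.Agent.Helper87.NSL.Costr

/-! The copy of a label given a partition of the space, as a label over the label (finite level): its information about a
variable `q` is at most `h(q | label) - h(q | partition)` up to the leak of the label at the partition. -/

set_option autoImplicit false

namespace Pool.Agent.Helper87.NSL

open Finset Filter Topology Matrix Pool.Agent.Helper69.RK Pool.Agent.Helper31.EC Pool.Agent.Helper40.EL
open Pool.Agent.Helper84.MT Pool.Agent.Helper3.LF Pool.Agent.Helper59.LF Pool.Agent.Helper89.LX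
open Pool.Agent.Helper48.NS

noncomputable section

variable {F : FSp} (l : FLab F) (A : Setoid F.Ω)

/-- two copies of the space of the label which agree in `A` (and in the base) -/
def cpA : FAm l.T l.T where
  α := Quotient A × Quotient F.Z
  f := fun ω => (Quotient.mk A (l.p.π ω), Quotient.mk F.Z (l.p.π ω))
  g := fun ω => (Quotient.mk A (l.p.π ω), Quotient.mk F.Z (l.p.π ω))
  law := fun _ => rfl
  Zr := Setoid.ker Prod.snd
  hZ1 := by
    intro ω ω' h h'
    rw [l.p.hZ ω ω' h h']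
    exact (Quotient.eq (r := F.Z)).symm
  hZ2 := by
    intro ω ω' h h'
    rw [l.p.hZ ω ω' h h']
    exact (Quotient.eq (r := F.Z)).symm

theorem cpA_supp (w : l.T.Ω × l.T.Ω) (h : (cpA l A).sp.μ w ≠ 0) : l.T.μ w.1 ≠ 0 ∧ l.T.μ w.2 ≠ 0 ∧
    A (l.p.π w.1) (l.p.π w.2) ∧ F.Z (l.p.π w.1) (l.p.π w.2) := by
  obtain ⟨h1, h2, h3⟩ := (cpA l A).supp w h
  have h4 : (Quotient.mk A (l.p.π w.1), Quotient.mk F.Z (l.p.π w.1)) =
    (Quotient.mk A (l.p.π w.2), Quotient.mk F.Z (l.p.π w.2)) := h1
  rw [Prod.mk.injEq] at h4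
  exact ⟨h2, h3, (Quotient.eq (r := A)).mp h4.1, (Quotient.eq (r := F.Z)).mp h4.2⟩

theorem cpA_ker : fc (Setoid.ker (cpA l A).f) = l.p.map (fc A) := by
  rw [l.p.map_fc]
  apply le_antisymm
  · apply fc_le
    intro ω ω' h h' hZ e
    show (Quotient.mk A (l.p.π ω), Quotient.mk F.Z (l.p.π ω)) =
      (Quotient.mk A (l.p.π ω'), Quotient.mk F.Z (l.p.π ω'))
    rw [Prod.mk.injEq]
    exact ⟨Quotient.sound e, Quotient.sound ((l.p.hZ ω ω' h h').mp hZ)⟩
  · apply fc_le
    intro ω ω' _ _ _ e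
    have h2 : (Quotient.mk A (l.p.π ω), Quotient.mk F.Z (l.p.π ω)) =
      (Quotient.mk A (l.p.π ω'), Quotient.mk F.Z (l.p.π ω')) := e
    rw [Prod.mk.injEq] at h2
    exact (Quotient.eq (r := A)).mp h2.1

theorem cpA_indep (x y : FL l.T) :
    I ((cpA l A).p1.map x) ((cpA l A).p2.map y) ((cpA l A).p1.map (l.p.map (fc A))) = 0 := by
  have h1 := (cpA l A).indep x y
  rw [cpA_ker] at h1
  exact h1

theorem cpA_common : (cpA l A).p1.map (l.p.map (fc A)) = (cpA l A).p2.map (l.p.map (fc A)) := by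
  have h1 := (cpA l A).common
  have h2 : (cpA l A).f = (cpA l A).g := rfl
  rw [← h2, cpA_ker] at h1
  exact h1

/-- the copy of the label given `A`, over the label -/
def cpl : FLab (l.ovr 1 one_pos) where
  T := (cpA l A).sp.chg (Setoid.comap (cpA l A).p1.π l.V) 1 one_pos
  p :=
    { π := (cpA l A).p1.π
      law := (cpA l A).p1.law
      hZ := fun _ _ _ _ => Iff.rfl }
  hn := rfl
  V := Setoid.comap (cpA l A).p2.π l.V

/-- the base of the copy -/
def cpf : FRb (cpl l A).T (cpA l A).sp := frb (cpA l A).sp (Setoid.comap (cpA l A).p1.π l.V) 1 one_pos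

theorem cpl_v : (cpl l A).v = (cpf l A).map ((cpA l A).p2.map l.v) := rfl

theorem cpl_top : (cpl l A).p.top = (cpf l A).map (cpA l A).p1.top := rfl

theorem cpl_up (x : FL F) : (cpl l A).p.map (l.up 1 one_pos x) =
    (cpf l A).map ((cpA l A).p1.map (l.p.map x)) := by
  induction x using fc_ind
  rfl

theorem cpl_W : (fc (cpf l A).W : FL (cpA l A).sp) = (cpA l A).p1.map l.v := rfl

/-- the information of the copy, resampled given `q` -/
theorem cpl_info (q : FL F) : (cpl l A).info - (cpl l A).leak (l.up 1 one_pos q) ≤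
    h (l.p.map q) l.v - h q (fc A) + l.leak (fc A) := by
  have h0 : (cpl l A).info - (cpl l A).leak (l.up 1 one_pos q) =
      I ((cpA l A).p2.map l.v) ((cpA l A).p1.map (l.p.map q)) ((cpA l A).p1.map l.v) := by
    rw [(cpl l A).info_eq_leak (l.up 1 one_pos q), cpl_v, cpl_up]
    have h1 := (cpf l A).I_map ((cpA l A).p2.map l.v) ((cpA l A).p1.map (l.p.map q)) ⊥
    rw [bot_sup_eq, cpl_W] at h1
    have h2 : (cpf l A).map (⊥ : FL (cpA l A).sp) = ⊥ := (cpf l A).map_bot
    rw [h2] at h1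
    rw [← h1]; ring
  rw [h0]
  set p1 := (cpA l A).p1 with hp1
  set p2 := (cpA l A).p2 with hp2
  set a : FL l.T := l.p.map (fc A) with ha
  set b : FL l.T := l.p.map q with hb
  have h1 : I (p2.map l.v) (p1.map b) (p1.map l.v) ≤ I (p1.map a ⊔ p2.map l.v) (p1.map b) (p1.map l.v) :=
    I_mono_left (le_sup_right.trans le_sup_left)
  have h2 := I_chain (p1.map a) (p2.map l.v) (p1.map b) (p1.map l.v)
  have h3 : I (p2.map l.v) (p1.map b) (p1.map a ⊔ p1.map l.v) = 0 := by
    have h4 : I (p2.map l.v) (p1.map (l.v ⊔ b)) (p1.map a) = 0 := by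
      rw [I_comm]
      exact cpA_indep l A (l.v ⊔ b) l.v
    rw [p1.map_sup] at h4
    have h5 := (I_decomp h4).2
    rw [sup_comm (p1.map l.v)] at h5
    exact h5
  have h4 : I (p1.map a) (p1.map b) (p1.map l.v) = h b l.v - h b (a ⊔ l.v) := by
    rw [p1.I_map, I_eq']
  have h5 : h b a - h b (a ⊔ l.v) = I l.v b a := by
    rw [I_eq', sup_comm l.v a]
  have h6 : I l.v b a ≤ l.leak (fc A) := I_mono_right ((l.p.map_le_top q).trans le_sup_left)
  have h7 : h b a = h q (fc A) := l.p.h_map _ _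
  rw [h3, add_zero, h4] at h2
  linarith

end

end Pool.Agent.Helper87.NSL
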