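import Pool.Agent.Helper87.NSL.R2R
import Pool.Agent.Helper87.NSL.Cpl
import Pool.Agent.Helper38.NSL.Tr2
import Pool.Agent.Helper52.KP.AgrF
import Pool.Agent.Helper89.MG.Typf

/-! LEMMA A: over a label with form and the cost property, which knows about the point as much as the window of the type
`i`, the form is known to this window. (Two copies of the label given the window have comparable forms.) -/

set_option autoImplicit false

namespace Pool.Agent.Helper87.NSL

open Finset Filter Topology Matrix Pool.Agent.Helper69.RK Pool.Agent.Helper31.EC Pool.Agent.Helper31.EC.Sp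
open Pool.Agent.Helper40.EL
open Pool.Agent.Helper84.MT Pool.Agent.Helper3.LF Pool.Agent.Helper59.LF Pool.Agent.Helper89.LX
open Pool.Agent.Helper48.NS Pool.Agent.Helper48.LIP Pool.Agent.Helper38.NSL
open Pool.Agent.Helper95.LF (PdM)

noncomputable section

/-- the information of the copy given `A` about `q` -/
theorem cpA_I {F : FSp} (l : FLab F) (A : Setoid F.Ω) (q : FL F) :
    I (fc (Setoid.comap (cpA l A).p2.π l.V)) ((cpA l A).p1.map (l.p.map q)) ((cpA l A).p1.map l.v) ≤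
      h (l.p.map q) l.v - h q (fc A) + l.leak (fc A) := by
  have e0 : (fc (Setoid.comap (cpA l A).p2.π l.V) : FL (cpA l A).sp) = (cpA l A).p2.map l.v := rfl
  rw [e0]
  set p1 := (cpA l A).p1 with hp1
  set p2 := (cpA l A).p2 with hp2
  set a : FL l.T := l.p.map (fc A) with ha
  set b : FL l.T := l.p.map q with hb
  have h1 : I (p2.map l.v) (p1.map b) (p1.map l.v) ≤ I (p1.map a ⊔ p2.map l.v) (p1.map b) (p1.map l.v) :=
    I_mono_left (le_sup_right.trans le_sup_left)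
  have h2 := I_chain (p1.map a) (p2.map l.v) (p1.map b) (p1.map l.v)
  have h3 : I (p2.map l.v) (p1.map b) (p1.map a ⊔ p1.map l.v) = 0 := by
    have h4 : I (p2.map l.v) (p1.map (l.v ⊔ b)) (p1.map a) = 0 := by
      rw [I_comm]
      exact cpA_indep l A (l.v ⊔ b) l.v
    rw [p1.map_sup] at h4
    have h5 := (I_decomp h4).2
    rw [sup_comm (p1.map l.v)] at h5
    exact h5
  have h4 : I (p1.map a) (p1.map b) (p1.map l.v) = h b l.v - h b (a ⊔ l.v) := by
    rw [p1.I_map, I_eq']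
  have h5 : h b a - h b (a ⊔ l.v) = I l.v b a := by
    rw [I_eq', sup_comm l.v a]
  have h6 : I l.v b a ≤ l.leak (fc A) := I_mono_right ((l.p.map_le_top q).trans le_sup_left)
  have h7 : h b a = h q (fc A) := l.p.h_map _ _
  rw [h3, add_zero, h4] at h2
  linarith

variable {S : Sp} {M D : ℕ} {E : ℕ → ℕ} {ι : Type}

/-- the first form of `x` is between one and the cap and typically bounded at the point -/
def FmG (Q : S.VV M) (x : ∀ k, FD (S.F k) (Mon M D)) : Prop :=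
  (∀ᶠ k in UF, ∀ ω, (x k).l.T.μ ω ≠ 0 → Cpd ((gaq Q D).cp k) ((x k).g ω)) ∧
  ∀ η : ℝ, 0 < η → ∀ᶠ k in UF,
    (x k).l.T.pb (fun ω => ¬ (gaq Q D).φ k ((x k).l.p.π ω) ((x k).g ω) ≤ 2 ^ (η * (S.F k).n)) ≤ η

theorem FmG_of_Adf {Q : S.VV M} {x : ∀ k, FD (S.F k) (Mon M D)} {κ : Type} {A : κ → Part S}
    (hx : (gaq Q D).Adf A x) : FmG Q x := by
  refine ⟨?_, fun η hη => ?_⟩
  · filter_upwards [hx 1 one_pos] with k hk ω hω
    exact (hk.2.1 ω hω).1
  · filter_upwards [hx η hη] with k hk using hk.2.2.1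

/-- the two copies of the label given the window of the type `i` -/
def cpw (s : MSys S M E ι) (c : ℝ) (i : ι) (x : ∀ k, FD (S.F k) (Mon M D)) (k : ℕ) : FAm (x k).l.T (x k).l.T :=
  cpA (x k).l (wn s c i k)

/-- CONTAINMENT: the form of one copy is bounded at the point of the other copy -/
theorem cpw_phi (s : MSys S M E ι) {c : ℝ} (h0 : 0 ≤ c) (h1 : c < 1) {x : ∀ k, FD (S.F k) (Mon M D)}
    (hF : FmG s.Q x) (i : ι) (hL : Nul S (fun k => (x k).l.leak ((s.lf i).win c k))) (η : ℝ) (hη : 0 < η) :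
    ∀ᶠ k in UF, (cpw s c i x k).sp.pb (fun w => ¬ (gaq s.Q D).φ k ((x k).l.p.π w.1) ((x k).g w.2) ≤
      2 ^ (η * (S.F k).n)) ≤ η := by
  obtain ⟨K', hK', hT⟩ := typ_phi (s.lf i) h0 h1 (fun k => (x k).l) hL (D := D) (fun k => (x k).g)
    (by
      filter_upwards [hF.1] with k hk w hw
      exact (hk w hw).pdM)
    (Eventually.of_forall fun k w w' h h' hZ hV _ => ((x k).meas w w' h h' hV hZ).1)
  obtain ⟨K2, hK2, hK21, hn⟩ := pt_near (s.lf i)
  have hs : S.Sub (fun k => cM M D (K2 k) * K' k) := (cM_Sub M D hK2 hK21).mul hK'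
  have hT' : Tendsto (fun k => (x k).l.T.pb (fun w => ¬ ∀ y : Fin (s.lf i).e → ℝ,
      (∀ j, |y j - (s.lf i).Y.v k ((x k).l.p.π w) j| < S.dl c k) →
        phi (S.dl 1 k) ((x k).g w) ((s.lf i).F k ((x k).l.p.π w) y) ≤
          K' k * phi (S.dl 1 k) ((x k).g w) (s.Q.v k ((x k).l.p.π w)))) UF (𝓝 0) := hT
  have hη2 : 0 < η / 2 := by linarith
  filter_upwards [hs.eventually_le hη2, hF.2 (η / 2) hη2, hT'.eventually (gt_mem_nhds hη2), hn, (s.lf i).fn, hK21,
    hF.1, hK'.1] with k a1 a2 a3 a4 a5 a6 a7 a8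
  set good : (x k).l.T.Ω → Prop := fun w => ∀ y : Fin (s.lf i).e → ℝ,
      (∀ j, |y j - (s.lf i).Y.v k ((x k).l.p.π w) j| < S.dl c k) →
        phi (S.dl 1 k) ((x k).g w) ((s.lf i).F k ((x k).l.p.π w) y) ≤
          K' k * phi (S.dl 1 k) ((x k).g w) (s.Q.v k ((x k).l.p.π w)) with hgood
  set sm : (x k).l.T.Ω → Prop := fun w => (gaq s.Q D).φ k ((x k).l.p.π w) ((x k).g w) ≤ 2 ^ (η / 2 * (S.F k).n)
    with hsm
  have h2 : (cpw s c i x k).sp.pb (fun w => ¬ (gaq s.Q D).φ k ((x k).l.p.π w.1) ((x k).g w.2) ≤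
      2 ^ (η * (S.F k).n)) ≤ (cpw s c i x k).sp.pb (fun w : (x k).l.T.Ω × (x k).l.T.Ω => (¬ good w.2) ∨ ¬ sm w.2) := by
    apply FSp.pb_mono
    intro w hw h3
    by_contra hc
    rw [not_or, not_not, not_not] at hc
    apply h3
    obtain ⟨b1, b2, b3, b4⟩ := cpA_supp (x k).l (wn s c i k) w hw
    have c1 := (x k).l.p.supp _ b1
    have c2 := (x k).l.p.supp _ b2
    have hdc := S.dl_pos c k
    -- the parameter of the first point is in the window of the second point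
    have hy : ∀ j, |(s.lf i).Y.v k ((x k).l.p.π w.1) j - (s.lf i).Y.v k ((x k).l.p.π w.2) j| < S.dl c k := by
      intro j
      have d1 : ⌊(s.lf i).Y.v k ((x k).l.p.π w.1) j / S.dl c k⌋ = ⌊(s.lf i).Y.v k ((x k).l.p.π w.2) j / S.dl c k⌋ :=
        congrFun b3.2 j
      have d2 := Int.abs_sub_lt_one_of_floor_eq_floor d1
      rwa [← sub_div, abs_div, abs_of_pos hdc, div_lt_iff₀ hdc, one_mul] at d2
    have e1 := hc.1 _ hy
    have e2 : (s.lf i).F k ((x k).l.p.π w.1) = (s.lf i).F k ((x k).l.p.π w.2) := a5 _ _ c1 c2 b4 b3.1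
    rw [← e2] at e1
    have hP : PdM ((x k).g w.2) := (a7 _ b2).pdM
    have e3 : phi (S.dl 1 k) ((x k).g w.2) (s.Q.v k ((x k).l.p.π w.1)) ≤ cM M D (K2 k) *
        phi (S.dl 1 k) ((x k).g w.2) ((s.lf i).F k ((x k).l.p.π w.1) ((s.lf i).Y.v k ((x k).l.p.π w.1))) :=
      phi_comp ((x k).g w.2) hP (S.dl 1 k) (S.dl 1 k) (K2 k) (S.dl_pos 1 k) (S.dl_pos 1 k).le a6 _ _
        (fun j => (a4 _ c1 j).1)
    have hcM := cM_one M D a6
    show phi (S.dl 1 k) ((x k).g w.2) (s.Q.v k ((x k).l.p.π w.1)) ≤ _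
    have e4 : phi (S.dl 1 k) ((x k).g w.2) (s.Q.v k ((x k).l.p.π w.2)) ≤ 2 ^ (η / 2 * (S.F k).n) := hc.2
    have e5 : (2 : ℝ) ^ (η * (S.F k).n) = 2 ^ (η / 2 * (S.F k).n) * 2 ^ (η / 2 * (S.F k).n) := by
      rw [← Real.rpow_add (by norm_num)]
      congr 1
      ring
    have hp0 : 0 ≤ phi (S.dl 1 k) ((x k).g w.2) (s.Q.v k ((x k).l.p.π w.2)) := phi_nonneg _ (fun y => hP.nonneg y) _
    calc phi (S.dl 1 k) ((x k).g w.2) (s.Q.v k ((x k).l.p.π w.1))
        ≤ cM M D (K2 k) * (K' k * phi (S.dl 1 k) ((x k).g w.2) (s.Q.v k ((x k).l.p.π w.2))) :=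
          e3.trans (mul_le_mul_of_nonneg_left e1 (by linarith))
      _ = (cM M D (K2 k) * K' k) * phi (S.dl 1 k) ((x k).g w.2) (s.Q.v k ((x k).l.p.π w.2)) := by ring
      _ ≤ 2 ^ (η / 2 * (S.F k).n) * 2 ^ (η / 2 * (S.F k).n) := mul_le_mul (by linarith) e4 hp0 (by positivity)
      _ = 2 ^ (η * (S.F k).n) := e5.symm
  refine h2.trans ((pb_or _ _ _).trans ?_)
  have h3 := pb_push (cpw s c i x k).p2 (fun w => ¬ good w)
  have h4 := pb_push (cpw s c i x k).p2 (fun w => ¬ sm w)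
  have h5 := a2
  have h6 : (cpw s c i x k).sp.pb (fun w : (x k).l.T.Ω × (x k).l.T.Ω => ¬ good w.2) = (x k).l.T.pb (fun w => ¬ good w) := h3
  have h7 : (cpw s c i x k).sp.pb (fun w : (x k).l.T.Ω × (x k).l.T.Ω => ¬ sm w.2) = (x k).l.T.pb (fun w => ¬ sm w) := h4
  rw [h6, h7]
  have h8 : (x k).l.T.pb (fun w => ¬ sm w) ≤ η / 2 := h5
  have h9 : (x k).l.T.pb (fun w => ¬ good w) < η / 2 := a3
  linarith

/-- two copies of the label given the window have comparable forms -/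
theorem cpw_near (s : MSys S M E ι) (hED : 1 ≤ E D) {c : ℝ} (h0 : 0 ≤ c) (h1 : c < 1)
    {x : ∀ k, FD (S.F k) (Mon M D)} (hF : FmG s.Q x) (hC : CostP s D c x) (i : ι)
    (hL : Nul S (fun k => (x k).l.leak ((s.lf i).win c k)))
    (hH : ∀ ε : ℝ, 0 < ε → ∀ᶠ k in UF, h ((x k).l.p.map (ptF s.Q k)) (x k).l.v ≤
      h (ptF s.Q k) ((s.lf i).win c k) + ε * (S.F k).n) (ε : ℝ) (hε : 0 < ε) :
    Tendsto (fun k => (cpw s c i x k).sp.pb (fun w => ¬ Nr (ε * (S.F k).n) ((x k).g w.1) ((x k).g w.2))) UF (𝓝 0) := by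
  classical
  have hN : (1 : ℝ) ≤ E D := by exact_mod_cast hED
  set e : ℝ := min (ε / 2) (E D * (1 - c)) with he
  have he0 : 0 < e := lt_min (by linarith) (mul_pos (by linarith) (by linarith))
  have he1 : e ≤ E D * (1 - c) := min_le_right _ _
  have he2 : 2 * e ≤ ε := by
    have := min_le_left (ε / 2) ((E D : ℝ) * (1 - c))
    linarith
  -- the information of the copy
  set J : ℕ → ℝ := fun k => I (fc (Setoid.comap (cpw s c i x k).p2.π (x k).l.V))
    ((cpw s c i x k).p1.map ((x k).l.p.map (ptF s.Q k))) ((cpw s c i x k).p1.map (x k).l.v) / (S.F k).n with hJ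
  have hJ0 : Tendsto J UF (𝓝 0) := by
    rw [Metric.tendsto_nhds]
    intro δ hδ
    have hδ3 : 0 < δ / 3 := by linarith
    filter_upwards [hH (δ / 3) hδ3, hL.eventually (gt_mem_nhds hδ3)] with k b1 b2
    have hn := (S.F k).pos
    have b3 := cpA_I (x k).l (wn s c i k) (ptF s.Q k)
    have b4 : (fc (wn s c i k) : FL (S.F k)) = (s.lf i).win c k := rfl
    rw [b4] at b3
    rw [div_lt_iff₀ hn] at b2
    have b5 : 0 ≤ J k := div_nonneg (I_nonneg _ _ _) hn.le
    rw [Real.dist_eq, sub_zero, abs_of_nonneg b5, hJ]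
    show I (fc (Setoid.comap (cpA (x k).l (wn s c i k)).p2.π (x k).l.V)) _ _ / _ < δ
    rw [div_lt_iff₀ hn]
    refine lt_of_le_of_lt b3 ?_
    nlinarith
  have hUJ : UB J := UB_of_tendsto hJ0
  have hcpd := hF.1
  have key := r2C s hC hcpd (fun k => (cpw s c i x k).sp) (fun k => (cpw s c i x k).p1) (fun k => rfl)
    (fun k => Setoid.comap (cpw s c i x k).p2.π (x k).l.V) (fun k w => (x k).g w.2) (by
      intro k w w' hw hw' hV _ hZ
      obtain ⟨b1, b2, b3, b4⟩ := cpA_supp (x k).l (wn s c i k) w hw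
      obtain ⟨c1, c2, c3, c4⟩ := cpA_supp (x k).l (wn s c i k) w' hw'
      have hZ' : (x k).l.T.Z w.1 w'.1 := hZ
      have d1 := ((x k).l.p.hZ _ _ b1 c1).mp hZ'
      have d2 : (S.F k).Z ((x k).l.p.π w.2) ((x k).l.p.π w'.2) :=
        (S.F k).Z.trans ((S.F k).Z.symm b4) ((S.F k).Z.trans d1 c4)
      have d3 := ((x k).l.p.hZ _ _ b2 c2).mpr d2
      exact ((x k).meas _ _ b2 c2 hV d3).1) (by
      filter_upwards [hcpd] with k hk w hw
      obtain ⟨b1, b2, b3, b4⟩ := cpA_supp (x k).l (wn s c i k) w hw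
      exact ⟨(hk _ b2).1, fun v => (hk _ b2).psd.2 v⟩) 0 e he0 he1 (by
      intro η hη
      filter_upwards [cpw_phi s h0 h1 hF i hL η hη] with k hk
      have e0 : (2 * 0 + η) * (S.F k).n = η * (S.F k).n := by ring
      rw [e0]
      exact hk) hUJ
  have hul : ul J = 0 := ul_eq hJ0
  have key2 : e * ul (fun k => (cpw s c i x k).sp.pb (fun w => ¬ ∀ v, qf ((x k).g w.2) v ≤
      2 ^ (2 * (e + 0) * (S.F k).n) * qf ((x k).g ((cpw s c i x k).p1.π w)) v)) ≤ 0 := by
    refine key.trans (le_of_eq ?_)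
    have : ul (fun k => I (fc (Setoid.comap (cpw s c i x k).p2.π (x k).l.V))
      ((cpw s c i x k).p1.map ((x k).l.p.map (ptF s.Q k))) ((cpw s c i x k).p1.map (x k).l.v) / (S.F k).n) = 0 := hul
    rw [this, mul_zero]
  set bad : ∀ k, (x k).l.T.Ω × (x k).l.T.Ω → Prop := fun k w => ¬ ∀ v, qf ((x k).g w.2) v ≤
      2 ^ (2 * (e + 0) * (S.F k).n) * qf ((x k).g w.1) v with hbad
  have hUb : UB (fun k => (cpw s c i x k).sp.pb (bad k)) :=
    UB_of_nonneg_le (C := 1) (Eventually.of_forall fun k => FSp.pb_nonneg _ _)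
      (Eventually.of_forall fun k => FSp.pb_le_one _ _)
  have hb0 : ul (fun k => (cpw s c i x k).sp.pb (bad k)) = 0 := by
    have u1 : 0 ≤ ul (fun k => (cpw s c i x k).sp.pb (bad k)) :=
      const_le_ul hUb (Eventually.of_forall fun k => FSp.pb_nonneg _ _)
    have u2 : e * ul (fun k => (cpw s c i x k).sp.pb (bad k)) ≤ 0 := key2
    nlinarith
  have hbt : Tendsto (fun k => (cpw s c i x k).sp.pb (bad k)) UF (𝓝 0) := by
    have := ul_tendsto hUb
    rwa [hb0] at this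
  have h2 := hbt.add hbt
  rw [add_zero] at h2
  refine tendsto_of_tendsto_of_tendsto_of_le_of_le' tendsto_const_nhds h2
    (Eventually.of_forall fun k => FSp.pb_nonneg _ _) ?_
  filter_upwards [hcpd] with k hk
  have h3 := FAm.swap_pb (cpw s c i x k) rfl (bad k)
  have h4 : (cpw s c i x k).sp.pb (fun w => ¬ Nr (ε * (S.F k).n) ((x k).g w.1) ((x k).g w.2)) ≤
      (cpw s c i x k).sp.pb (fun w : (x k).l.T.Ω × (x k).l.T.Ω => bad k (w.2, w.1) ∨ bad k w) := by
    apply FSp.pb_mono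
    intro w hw h5
    by_contra hc
    rw [not_or, not_not, not_not] at hc
    apply h5
    obtain ⟨b1, b2, -, -⟩ := cpA_supp (x k).l (wn s c i k) w hw
    have hexp : (2 : ℝ) ^ (2 * (e + 0) * (S.F k).n) ≤ 2 ^ (ε * (S.F k).n) := by
      apply Real.rpow_le_rpow_of_exponent_le (by norm_num)
      have := (S.F k).pos
      nlinarith
    refine ⟨fun v => (hc.1 v).trans (mul_le_mul_of_nonneg_right hexp ((hk _ b2).psd.2 v)),
      fun v => (hc.2 v).trans (mul_le_mul_of_nonneg_right hexp ((hk _ b1).psd.2 v))⟩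
  refine h4.trans ((pb_or _ _ _).trans ?_)
  exact add_le_add (le_of_eq h3) le_rfl

/-- LEMMA A: if the label of `x` does not know less about the point than the window `c` of the type `i`, its form is known
to this window -/
theorem lemA (s : MSys S M E ι) (hED : 1 ≤ E D) {c : ℝ} (h0 : 0 ≤ c) (h1 : c < 1)
    {x : ∀ k, FD (S.F k) (Mon M D)} (hF : FmG s.Q x) (hC : CostP s D c x) (i : ι)
    (hL : Nul S (fun k => (x k).l.leak ((s.lf i).win c k)))
    (hH : ∀ ε : ℝ, 0 < ε → ∀ᶠ k in UF, h ((x k).l.p.map (ptF s.Q k)) (x k).l.v ≤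
      h (ptF s.Q k) ((s.lf i).win c k) + ε * (S.F k).n) : KnJ s c i x := by
  classical
  intro ε hε
  have key := cpw_near s hED h0 h1 hF hC i hL hH ε hε
  choose b hb1 hb2 using fun k => (cpw s c i x k).agree
    (fun w w' => Nr (ε * (S.F k).n) ((x k).g w) ((x k).g w'))
  set q : ∀ k, (S.F k).Ω → (cpw s c i x k).α := fun k a =>
    (Quotient.mk (wn s c i k) a, Quotient.mk (S.F k).Z a) with hq
  refine ⟨fun k a => if Cpd (capF (S.F k) D) ((x k).g (b k (q k a))) then (x k).g (b k (q k a)) else 1, ?_, ?_, ?_⟩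
  · refine Eventually.of_forall fun k a a' _ _ hZ hA => ?_
    have e1 : q k a = q k a' := by
      show (Quotient.mk (wn s c i k) a, Quotient.mk (S.F k).Z a) = (Quotient.mk (wn s c i k) a', Quotient.mk (S.F k).Z a')
      rw [Prod.mk.injEq]
      exact ⟨Quotient.sound hA, Quotient.sound hZ⟩
    simp only [e1]
  · refine Eventually.of_forall fun k a _ => ?_
    show Cpd (capF (S.F k) D) (if Cpd (capF (S.F k) D) ((x k).g (b k (q k a))) then (x k).g (b k (q k a)) else 1)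
    split_ifs with hc
    · exact hc
    · exact Cpd_one ((gaq s.Q D).one_le_cp k)
  · refine tendsto_of_tendsto_of_tendsto_of_le_of_le' tendsto_const_nhds key
      (Eventually.of_forall fun k => FSp.pb_nonneg _ _) ?_
    filter_upwards [hF.1] with k hk
    have a1 := (x k).l.T.pb_add_compl (fun w => Nr (ε * (S.F k).n) ((x k).g w) ((x k).g (b k ((cpw s c i x k).f w))))
    have a2 := (cpw s c i x k).sp.pb_add_compl (fun w => Nr (ε * (S.F k).n) ((x k).g w.1) ((x k).g w.2))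
    have a3 := hb2 k
    have a4 : (x k).l.T.pb (fun ω => ¬ Nr (ε * (S.F k).n) ((x k).g ω)
        (if Cpd (capF (S.F k) D) ((x k).g (b k (q k ((x k).l.p.π ω)))) then (x k).g (b k (q k ((x k).l.p.π ω))) else 1)) ≤
        (x k).l.T.pb (fun w => ¬ Nr (ε * (S.F k).n) ((x k).g w) ((x k).g (b k ((cpw s c i x k).f w)))) := by
      apply FSp.pb_mono
      intro w hw h5 h6
      apply h5
      have e1 : q k ((x k).l.p.π w) = (cpw s c i x k).f w := rfl
      have e2 : Cpd (capF (S.F k) D) ((x k).g (b k (q k ((x k).l.p.π w)))) := by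
        rw [e1]
        exact hk _ (hb1 k w hw).2
      rw [if_pos e2, e1]
      exact h6
    linarith

end

end Pool.Agent.Helper87.NSL
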