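import Pool.Agent.Helper87.NSL.Aux2

/-! NSLs, assembly, part 3: copies and leaves over all types. -/

set_option autoImplicit false

namespace Pool.Agent.Helper87.NSL

open Finset Filter Topology Matrix Pool.Agent.Helper69.RK Pool.Agent.Helper31.EC Pool.Agent.Helper31.EC.Sp
open Pool.Agent.Helper40.EL Pool.Agent.Helper84.MT Pool.Agent.Helper3.LF
open Pool.Agent.Helper89.LX Pool.Agent.Helper38.NSL
open Pool.Agent.Helper76.DIM (pck CutF VLeaf)
open Pool.Agent.Helper76.LG (VLeafX vtype')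
open Pool.Agent.Helper85.OA (cA cA_ge)
open Pool.Agent.Helper36.AM (MCl STu)
open Pool.Agent.Helper81.CP2 (Rows HRw ini cLb cLb_leak' joint_indep cutF_joint)
open Pool.Agent.Helper80.SUB (Sub SubCl)
open Pool.Agent.Helper69.LAB (sub_trn sub_trn_one)
open Pool.Agent.Helper38.PUR (Pr Rch Bad Rec LK prs pur st_bad st_cutf)
open Pool.Agent.Helper14.NHG (NHC)
open Pool.Agent.Helper81.CPY (pjb)

noncomputable section

variable {S T : Sp} {N D g r g' r' v : ℕ}
  {TT : ∀ S : Sp, MSys S N (lin g) (Fin r) → (∀ k, Setoid (S.F k).Ω) → Prop} {Cl : MCl N} {w : ℕ} {P : Prop}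
  {K K' : ℕ → ℝ}

/-- transversality of the copies joined with the windows `c` -/
theorem nhe_copies {s : MSys S N (lin g) (Fin r)} {R V : ∀ k, Setoid (S.F k).Ω} {W : Sp} {p : Pj W S}
    {q : ∀ i : Fin r, Pj W (cLb (s.lf i) V).sp} {κ κ' : ℝ}
    (hN : ∀ (M D : ℕ) (Q : S.VV M) (K g₀ : ℝ) (κ : Type) (U : κ → ∀ k, Setoid (S.F k).Ω)
      (C : Fin r → ∀ k, Setoid (S.F k).Ω), (∀ i, ∀ᶠ k in UF, (cLb (s.lf i) V k).leak (fc (C i k)) = 0) →
      NHEt Q D (Sum.elim U C) K g₀ → NHEt (S := W) (p.vv Q) D (Sum.elim (fun i => p.pb (U i))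
        (fun i k => (q i).pb (cLb (s.lf i) V).V k ⊓ p.pb (C i) k)) K g₀)
    (h : NHC s D R (fun i => i) κ κ') (c : ℝ) (hc : 0 < c) (hc1 : c ≤ 1) :
    NHEt (S := W) (p.vv s.Q) D
      (optW (p.pb R) (fun i k => (q i).pb (cLb (s.lf i) V).V k ⊓ p.pb (wn s c i) k)) κ (κ' * c) := by
  have h1 := nhc_pair h hc hc1
  have h2 : NHEt s.Q D (Sum.elim (fun _ : Unit => R) (fun (i : Fin r) k => wn s c i k ⊓ wn s 0 i k)) κ (κ' * c) := by
    refine h1.ren (fun o => match o with | none => Sum.inl () | some i => Sum.inr i)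
      (Eventually.of_forall fun k o ω ω' _ _ _ hw => ?_)
    rcases o with _ | i
    · exact hw
    · exact hw
  have h3 := hN N D s.Q κ (κ' * c) Unit (fun _ => R) (fun i k => wn s c i k ⊓ wn s 0 i k) (fun i =>
    Eventually.of_forall fun k => by
      have h4 := cLb_leak' (s.lf i) V k
      exact le_antisymm ((FLab.leak_anti _ (fc_mono inf_le_right)).trans_eq h4) (FLab.leak_nonneg _ _)) h2
  refine h3.ren (fun o => match o with | Sum.inl _ => none | Sum.inr i => some i)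
      (Eventually.of_forall fun k o ω ω' _ _ _ hw => ?_)
  rcases o with _ | i
  · exact hw
  · exact ⟨hw.1, hw.2.1⟩

/-- THE STEP -/
theorem vstep (hST : ∀ m, m < N → STu m) (hC : ImCl N Cl) (hS : SubCl Cl) (hG : ∀ (S : Sp) (g r : ℕ)
    (s : MSys S N (lin g) (Fin r)), 1 ≤ g → 0 < r → Cl S g r s → UDe (v + 1) s → Gd s) (hT : TTc Cl v K K' TT)
    {u : ℕ} (hvu : v + 1 ≤ u) (h : VPd TT u) : ∃ u', VPd TT u' ∧ v < u' ∧ u < u' := by
  obtain ⟨S, s, R, V, τ, hu, b, D, G, tt, hb, hb1, hD, hτ, hV, hcut, hrw⟩ := h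
  obtain ⟨W, p, q, hq, hN⟩ := exists_cpt r (fun i => cLb (s.lf i) V)
  have hx : ∀ i, CutF (S := W) ((q i).pb (cLb (s.lf i) V).V) (p.vv s.Q) (ini τ hu.le) b D
      (fun j k w => G j k ((q i).π k w : _ × _).2) := fun i =>
    cutF_joint (s.lf i) V p (q i) (hq i) hτ hu.le hcut (hV i) (hrw i)
  choose La Y n c β A f y using fun i => vtype' hb hb1.le hD (hx i)
  have hsub := sub_trn s p hb hb1.le (fun _ => ini τ hu.le) (fun i => (q i).pb (cLb (s.lf i) V).V) La Y n c f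
    (fun i => (y i).toVLeaf) (fun j => j) (fun j => by
      refine (Nul_zero S).of_le (Eventually.of_forall fun k => I_nonneg _ _ _) (Eventually.of_forall fun k => ?_)
      exact (joint_indep (s.lf j) V p (q j) (hq j) k).le)
  have httr := hT.trn _ _ _ tt b hb hb1.le
  have haux : AuxP TT Cl u True K (W.chg W.tr b hb)
      (⟨(p.vv s.Q).chg W.tr b hb, f⟩ : MSys (W.chg W.tr b hb) N (lin (1 * cA N (N + N) D)) (Fin r)) :=
    ⟨S.chg S.tr b hb, s.trn b hb hb1.le, R, pjb p S.tr b hb, httr, hsub,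
      hS _ _ _ _ (hT.cl _ _ _ httr) _ _ _ _ _ hsub,
      Pool.Agent.Helper69.UDV.st_UDV W N u _ _ r D (p.vv s.Q) _ La (ini τ hu.le) b hb _ Y n c β A f hb1.le hx y,
      fun _ D' => nhe_leaves s p R hb hb1 (fun i => (q i).pb (cLb (s.lf i) V).V) La (fun _ => ini τ hu.le) Y n c β A f
        (hT.K0 D') (fun c hc hc1 => nhe_copies hN (hT.nh _ _ _ tt D') c hc hc1) y⟩
  have hg' : 1 ≤ 1 * cA N (N + N) D := by
    rw [one_mul]
    exact cA_ge (N + N) D (by omega)
  obtain ⟨u', h1, h2, h3⟩ := vpx hST hC hG hT hvu hg' hT.r0 haux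
  exact ⟨u', h1, h2, h3 trivial⟩

end

end Pool.Agent.Helper87.NSL
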