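import Pool.Agent.Helper87.NSL.LemA
import Pool.Agent.Helper38.NSL.Hf
import Pool.Agent.Helper17.KL.Cost

/-! CLAIM (K-labels), the core: over a kernel of the resolution with form and the cost property, which knows about the
point as much as the windows of the types of a family, the form is known to the resolution and to all these windows. -/

set_option autoImplicit false

namespace Pool.Agent.Helper87.NSL

open Finset Filter Topology Matrix Pool.Agent.Helper69.RK Pool.Agent.Helper31.EC Pool.Agent.Helper31.EC.Sp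
open Pool.Agent.Helper40.EL
open Pool.Agent.Helper84.MT Pool.Agent.Helper3.LF Pool.Agent.Helper59.LF Pool.Agent.Helper89.LX
open Pool.Agent.Helper48.NS Pool.Agent.Helper48.LIP Pool.Agent.Helper38.NSL
open Pool.Agent.Helper14.MC (vx)

noncomputable section

variable {S : Sp} {M D : ℕ} {E : ℕ → ℕ} {ι : Type}

/-- the label of `x` does not know more about the point than the window `c` of the type `i` : the entropy of the point
over the label is at most the entropy over the window -/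
def HLe (s : MSys S M E ι) (c : ℝ) (i : ι) (x : ∀ k, FD (S.F k) (Mon M D)) : Prop :=
  ∀ ε : ℝ, 0 < ε → ∀ᶠ k in UF, h ((x k).l.p.map (ptF s.Q k)) (x k).l.v ≤
      h (ptF s.Q k) ((s.lf i).win c k) + ε * (S.F k).n

/-- lower bound for the entropy of the window, upper bound for the entropy of the label -/
theorem HLe_of_num {s : MSys S M E ι} {c : ℝ} {i : ι} {x : ∀ k, FD (S.F k) (Mon M D)} {v : ℝ}
    (h1 : ∀ ε : ℝ, 0 < ε → ∀ᶠ k in UF, h ((x k).l.p.map (ptF s.Q k)) (x k).l.v ≤ (v + ε) * (S.F k).n)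
    (h2 : ∀ ε : ℝ, 0 < ε → ∀ᶠ k in UF, (v - ε) * (S.F k).n ≤ h (ptF s.Q k) ((s.lf i).win c k)) : HLe s c i x := by
  intro ε hε
  filter_upwards [h1 (ε / 2) (by linarith), h2 (ε / 2) (by linarith)] with k a b
  nlinarith

/-- CLAIM, core: close forms of finite data which are known to the resolution and to the windows of the types `V j` -/
theorem claim_core {κ : Type} [Finite κ] [Nonempty κ] (s : MSys S M E ι) (hED : 1 ≤ E D) {c : ℝ} (h0 : 0 ≤ c)
    (h1 : c < 1) (R : ∀ k, Setoid (S.F k).Ω) (V : κ → ι) {κ' : Type} {A : κ' → Part S}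
    {x : ∀ k, FD (S.F k) (Mon M D)} (hx : (gaq s.Q D).Adf A x) (hC : CostP s D c x)
    (hK : ∀ᶠ k in UF, (x k).l.leak (fc (R k)) = 0)
    (hL : ∀ j, Nul S (fun k => (x k).l.leak ((s.lf (V j)).win c k))) (hH : ∀ j, HLe s c (V j) x) {e γ : ℝ}
    (he : 0 < e) (hγ : γ < ul (vx s.Q x)) :
    ∀ᶠ k in UF, HasF (S.F k) M D (s.Q.v k) (fun i => optW R (fun j => wn s c (V j)) i k) e γ :=
  hasF_K s.Q R (fun j => wn s c (V j)) hx hK
    (fun j => knJ_iff.mp (lemA s hED h0 h1 (FmG_of_Adf hx) hC (V j) (hL j) (hH j))) he hγ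

/-- type-labels: the same for a family of windows alone (no condition at the point) -/
theorem claim_typ {κ : Type} [Finite κ] (s : MSys S M E ι) (hED : 1 ≤ E D) {c : ℝ} (h0 : 0 ≤ c)
    (h1 : c < 1) (V : κ → ι) {κ' : Type} {A : κ' → Part S}
    {x : ∀ k, FD (S.F k) (Mon M D)} (hx : (gaq s.Q D).Adf A x) (hC : CostP s D c x)
    (hL : ∀ j, Nul S (fun k => (x k).l.leak ((s.lf (V j)).win c k))) (hH : ∀ j, HLe s c (V j) x) {e γ : ℝ}
    (he : 0 < e) (hγ : γ < ul (vx s.Q x)) :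
    ∀ᶠ k in UF, HasF (S.F k) M D (s.Q.v k) (fun j => wn s c (V j) k) e γ :=
  hasF_of_knw s.Q (fun j => wn s c (V j)) hx
    (fun j => knJ_iff.mp (lemA s hED h0 h1 (FmG_of_Adf hx) hC (V j) (hL j) (hH j))) he hγ

/-- CLAIM for optimal K-forms -/
theorem claim_K [Finite ι] {κ : Type} [Finite κ] [Nonempty κ] (s : MSys S M E ι) (hED : 1 ≤ E D) {c : ℝ} (h0 : 0 ≤ c)
    (h1 : c < 1) (R : ∀ k, Setoid (S.F k).Ω) (hR : ∀ k, R k ≤ Setoid.ker (s.Q.cellv 1 k)) (V : κ → ι)
    {x : ∀ k, FD (S.F k) (Mon M D)} (hx : (gaq s.Q D).OptfK (LC.kz (fun k => fc (R k))) (cndR s R c) x)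
    (hH : ∀ j, HLe s c (V j) x) {e γ : ℝ} (he : 0 < e) (hγ : γ < ul (vx s.Q x)) :
    ∀ᶠ k in UF, HasF (S.F k) M D (s.Q.v k) (fun i => optW R (fun j => wn s c (V j)) i k) e γ :=
  claim_core s hED h0 h1 R V hx.1.1 (Pool.Agent.Helper17.KL.costP_of_optK s hED h0 h1 R hR hx) hx.1.2
    (fun j => Gau.Adf.dm _ hx.1.1 (some (V j))) hH he hγ

/-- CLAIM for optimal forms of type-labels -/
theorem claim_T [Finite ι] {κ : Type} [Finite κ] (s : MSys S M E ι) (hED : 1 ≤ E D) {c : ℝ} (h0 : 0 ≤ c)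
    (h1 : c < 1) (V : κ → ι) {x : ∀ k, FD (S.F k) (Mon M D)} (hx : (gaq s.Q D).Optf (fun i => (s.lf i).win c) x)
    (hH : ∀ j, HLe s c (V j) x) {e γ : ℝ} (he : 0 < e) (hγ : γ < ul (vx s.Q x)) :
    ∀ᶠ k in UF, HasF (S.F k) M D (s.Q.v k) (fun j => wn s c (V j) k) e γ :=
  claim_typ s hED h0 h1 V hx.1 (Pool.Agent.Helper17.KL.costP_of_typ s hED h0 h1 hx)
    (fun j => Gau.Adf.dm _ hx.1 (V j)) hH he hγ

end

end Pool.Agent.Helper87.NSL
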