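import Pool.Agent.Helper87.NSL.Clm
import Pool.Agent.Helper76.DIM.Dim

/-! Unit directions of a type: parameters which are coordinates of the point. Lower bound for the entropy of the point
over a window of the type. -/

set_option autoImplicit false

namespace Pool.Agent.Helper87.NSL

open Finset Filter Topology Matrix Pool.Agent.Helper69.RK Pool.Agent.Helper31.EC Pool.Agent.Helper31.EC.Sp
open Pool.Agent.Helper40.EL Pool.Agent.Helper84.MT Pool.Agent.Helper89.LX Pool.Agent.Helper63.FRT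
open Pool.Agent.Helper76.DIM (pck full_level)

noncomputable section

variable {S : Sp} {M : ℕ} {E : ℕ → ℕ} {ι : Type}

/-- the parameters `τ` of the leaf are the coordinates `σ` of the point, up to the resolution -/
structure UDir {Q : S.VV M} (f : Leaf S Q E) {v : ℕ} (σ : Fin v → Fin M) (τ : Fin v → Fin f.e) : Prop where
  inj : Function.Injective τ
  near : ∃ K : ℕ → ℝ, S.Sub K ∧ ∀ᶠ k in UF, ∀ ω, (S.F k).μ ω ≠ 0 → ∀ a,
    |Q.v k ω (σ a) - f.Y.v k ω (τ a)| ≤ K k * S.dl 1 k

/-- the entropy of the parameters of the leaf over the window -/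
theorem full_win {Q : S.VV M} (f : Leaf S Q E) {c : ℝ} (h0 : 0 ≤ c) (h1 : c ≤ 1) (ε : ℝ) (hε : 0 < ε) :
    ∀ᶠ k in UF, (f.e * (1 - c) - ε) * (S.F k).n ≤ h (fc (Setoid.ker (f.Y.cellv 1 k))) (f.win c k) := by
  have t1 := f.full.eventually (lt_mem_nhds (show (f.e : ℝ) - ε / 2 < f.e by linarith))
  have t2 := (full_level f.Y f.La f.full c h0 h1).eventually
    (gt_mem_nhds (show (f.e : ℝ) * c < f.e * c + ε / 2 by linarith))
  filter_upwards [t1, t2] with k a b
  have hn := (S.F k).pos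
  rw [lt_div_iff₀ hn] at a
  rw [div_lt_iff₀ hn] at b
  have h2 : h (fc (Setoid.ker (f.Y.cellv 1 k))) (fc (f.La k)) ≤ h (fc (Setoid.ker (f.Y.cellv c k))) (fc (f.La k)) +
      h (fc (Setoid.ker (f.Y.cellv 1 k))) (f.win c k) := by
    refine (h_mono (le_sup_right : fc (Setoid.ker (f.Y.cellv 1 k)) ≤ fc (Setoid.ker (f.Y.cellv c k)) ⊔ _)).trans ?_
    rw [h_chain]
    show _ ≤ _ + h _ (fc (f.La k ⊓ Setoid.ker (f.Y.cellv c k)))
    rw [fc_inf, sup_comm (fc (f.La k))]
  nlinarith

/-- LOWER BOUND for the entropy of the point over a window of a type with unit directions -/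
theorem hpt_of_unit {Q : S.VV M} (f : Leaf S Q E) {c : ℝ} (h0 : 0 ≤ c) (h1 : c ≤ 1) {v : ℕ} {σ : Fin v → Fin M}
    {τ : Fin v → Fin f.e} (hu : UDir f σ τ) (ε : ℝ) (hε : 0 < ε) :
    ∀ᶠ k in UF, (v * (1 - c) - ε) * (S.F k).n ≤ h (ptF Q k) (f.win c k) := by
  classical
  obtain ⟨K, hK, hnear⟩ := hu.near
  -- the chosen parameters at level one are known to the cell of the point
  have p1 : Tendsto (fun k => h (fc (Setoid.ker ((pck f.Y τ).cellv 1 k))) (fc (Setoid.ker (Q.cellv 1 k))) /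
      (S.F k).n) UF (𝓝 0) := by
    refine PLe_cell (pck f.Y τ) 1 _ (fun k => 2 * K k + 1) (((S.Sub_const zero_le_two).mul hK).add
      (S.Sub_const zero_le_one)) ?_
    filter_upwards [hnear] with k hk ω ω' a b _ q i
    have h2 := hk ω a i
    have h3 := hk ω' b i
    have h4 : |Q.v k ω (σ i) - Q.v k ω' (σ i)| ≤ S.dl 1 k := abs_sub_le_of_floor_eq (S.dl_pos _ k) (congrFun q (σ i))
    show |f.Y.v k ω (τ i) - f.Y.v k ω' (τ i)| ≤ _
    rw [abs_le] at *
    constructor <;> linarith [h2.1, h2.2, h3.1, h3.2, h4.1, h4.2]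
  -- the other parameters
  set a : Fin f.e → ℝ := fun i => if i ∈ Set.range τ then 1 else c with ha
  have p2 := h_celm_le f.Y a (fun _ => 1) (fun i => by
      simp only [ha]
      split_ifs
      · exact le_rfl
      · exact h1) (fun k => f.La k ⊓ Setoid.ker (f.Y.cellv c k) ⊓ Setoid.ker ((pck f.Y τ).cellv 1 k)) (fun _ => 1)
    (S.Sub_const zero_le_one)
    (Eventually.of_forall fun k ω ω' _ _ _ q i => by
      rw [one_mul]
      simp only [ha]
      split_ifs with hi
      · obtain ⟨j, hj⟩ := hi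
        have h2 := congrFun q.2 j
        rw [← hj]
        exact abs_sub_le_of_floor_eq (S.dl_pos _ k) h2
      · exact abs_sub_le_of_floor_eq (S.dl_pos _ k) (congrFun q.1.2 i)) (ε / 4) (by linarith)
  have hsum : ∑ i, ((fun _ => (1 : ℝ)) i - a i) = (f.e - v) * (1 - c) := by
    have e1 : ∀ i, ((fun _ => (1 : ℝ)) i - a i) = (1 - c) - (if i ∈ Set.range τ then (1 - c) else 0) := by
      intro i
      simp only [ha]
      split_ifs <;> ring
    rw [Finset.sum_congr rfl (fun i _ => e1 i), Finset.sum_sub_distrib, ← Finset.sum_filter, Finset.sum_const,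
      Finset.sum_const, Finset.card_univ, Fintype.card_fin, nsmul_eq_mul, nsmul_eq_mul]
    have e2 : (univ.filter fun i => i ∈ Set.range τ) = univ.image τ := by
      ext i
      simp
    rw [e2, Finset.card_image_of_injective _ hu.inj, Finset.card_univ, Fintype.card_fin]
    ring
  rw [hsum, celm_const] at p2
  have hε4 : 0 < ε / 4 := by linarith
  filter_upwards [full_win f h0 h1 (ε / 4) hε4, p1.eventually (gt_mem_nhds hε4), p2] with k b1 b2 b3
  have hn := (S.F k).pos
  rw [div_lt_iff₀ hn] at b2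
  rw [div_le_iff₀ hn] at b3
  set P : FL (S.F k) := fc (Setoid.ker ((pck f.Y τ).cellv 1 k)) with hP
  set Y1 : FL (S.F k) := fc (Setoid.ker (f.Y.cellv 1 k)) with hY1
  have c1 : h Y1 (f.win c k) ≤ h P (f.win c k) + h Y1 (fc (f.La k ⊓ Setoid.ker (f.Y.cellv c k) ⊓
      Setoid.ker ((pck f.Y τ).cellv 1 k))) := by
    refine (h_mono (le_sup_right : Y1 ≤ P ⊔ _)).trans ?_
    rw [h_chain, fc_inf, sup_comm (fc (f.La k ⊓ Setoid.ker (f.Y.cellv c k)))]
    exact le_rfl
  have c2 : h P (f.win c k) ≤ h (ptF Q k) (f.win c k) + h P (fc (Setoid.ker (Q.cellv 1 k))) := by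
    refine (h_mono (le_sup_right : P ≤ ptF Q k ⊔ _)).trans ?_
    rw [h_chain]
    exact add_le_add le_rfl (h_anti le_sup_left)
  nlinarith

end

end Pool.Agent.Helper87.NSL
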